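import Mathlib

/-!
# Closed polygons over an abstract order type: turning number and levels

Vertices are natural numbers (ordered by abscissa), and `s a b c`, for `a < b < c`, tells whether
`c` is above the line `ab`.
-/

set_option autoImplicit false

namespace Pool.Agent.H41.Refl

open Finset

/-- signed crossing of the upward ray from `z` by the directed segment `a → b` -/
def cc (s : ℕ → ℕ → ℕ → Bool) (z a b : ℕ) : ℤ :=
  if b < z ∧ z < a ∧ s b z a = true then 1
  else if a < z ∧ z < b ∧ s a z b = true then -1 else 0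

/-- signed crossing of the downward ray from `z` by the directed segment `a → b`, with the
opposite sign -/
def ee (s : ℕ → ℕ → ℕ → Bool) (z a b : ℕ) : ℤ :=
  if a < z ∧ z < b ∧ s a z b = false then 1
  else if b < z ∧ z < a ∧ s b z a = false then -1 else 0

/-- the segments with ends `a < b` and `c < d` do not cross -/
def NC0 (s : ℕ → ℕ → ℕ → Bool) (a b c d : ℕ) : Prop :=
  (a < c → c < b → b < d → s a c b ≠ s c b d) ∧
  (c < a → a < d → d < b → s c a d ≠ s a d b) ∧
  (a < c → c < d → d < b → s a c b = s a d b) ∧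
  (c < a → a < b → b < d → s c a d = s c b d)

/-- the segments `ab` and `cd` do not cross -/
def NC (s : ℕ → ℕ → ℕ → Bool) (a b c d : ℕ) : Prop :=
  NC0 s a b c d ∧ NC0 s b a c d ∧ NC0 s a b d c ∧ NC0 s b a d c

variable {s : ℕ → ℕ → ℕ → Bool}

theorem cc_swap (z a b : ℕ) : cc s z b a = - cc s z a b := by
  unfold cc; split_ifs <;> first | rfl | omega

theorem ee_swap (z a b : ℕ) : ee s z b a = - ee s z a b := by
  unfold ee; split_ifs <;> first | rfl | omega

theorem cell0 {p q r t : ℕ} (hpq : p < q) (hrt : r < t)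
    (h1 : p ≠ r) (h2 : p ≠ t) (h3 : q ≠ r) (h4 : q ≠ t) (h : NC0 s p q r t) :
    cc s p r t - cc s q r t + ee s t p q - ee s r p q = 0 := by
  unfold cc ee
  unfold NC0 at h
  rcases Nat.lt_or_gt_of_ne h1 with a1 | a1 <;> rcases Nat.lt_or_gt_of_ne h2 with a2 | a2 <;>
    rcases Nat.lt_or_gt_of_ne h3 with a3 | a3 <;> rcases Nat.lt_or_gt_of_ne h4 with a4 | a4 <;>
    first
    | (exfalso; omega)
    | grind (splits := 30)

theorem cell {p q r t : ℕ} (hpq : p ≠ q) (hrt : r ≠ t)
    (h1 : p ≠ r) (h2 : p ≠ t) (h3 : q ≠ r) (h4 : q ≠ t) (h : NC s p q r t) :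
    cc s p r t - cc s q r t + ee s t p q - ee s r p q = 0 := by
  obtain ⟨ha, hb, hc, hd⟩ := h
  rcases Nat.lt_or_gt_of_ne hpq with a | a <;> rcases Nat.lt_or_gt_of_ne hrt with b | b
  · exact cell0 a b h1 h2 h3 h4 ha
  · have := cell0 a b h2 h1 h4 h3 hc
    rw [cc_swap p r t, cc_swap q r t] at this
    linarith
  · have := cell0 a b h3 h4 h1 h2 hb
    rw [ee_swap t p q, ee_swap r p q] at this
    linarith
  · have := cell0 a b h4 h3 h2 h1 hd
    rw [cc_swap p r t, cc_swap q r t, ee_swap t p q, ee_swap r p q] at this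
    linarith

theorem cc_self_left (a b : ℕ) : cc s a a b = 0 := by
  unfold cc; split_ifs <;> first | rfl | omega

theorem cc_self_right (a b : ℕ) : cc s b a b = 0 := by
  unfold cc; split_ifs <;> first | rfl | omega

/-- A closed polygon with `n` vertices, listed periodically. -/
structure Poly (n : ℕ) (s : ℕ → ℕ → ℕ → Bool) (p : ℕ → ℕ) : Prop where
  hn : 3 ≤ n
  per : ∀ k, p (k + n) = p k
  ne : ∀ i j, i < j → j < i + n → p i ≠ p j
  nc : ∀ i j, i + 2 ≤ j → j + 2 ≤ i + n → NC s (p i) (p (i + 1)) (p j) (p (j + 1))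

/-- passing through the upward direction at the vertex `p (k+1)` -/
def tu (s : ℕ → ℕ → ℕ → Bool) (p : ℕ → ℕ) (k : ℕ) : ℤ :=
  cc s (p k) (p (k + 1)) (p (k + 2)) + ee s (p (k + 2)) (p k) (p (k + 1))

/-- passing through the downward direction at the vertex `p (k+1)` -/
def td (s : ℕ → ℕ → ℕ → Bool) (p : ℕ → ℕ) (k : ℕ) : ℤ :=
  cc s (p (k + 2)) (p k) (p (k + 1)) + ee s (p k) (p (k + 1)) (p (k + 2))

/-- signed number of edges above the vertex `p m` -/
def W (s : ℕ → ℕ → ℕ → Bool) (n : ℕ) (p : ℕ → ℕ) (m : ℕ) : ℤ :=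
  ∑ j ∈ Ico m (m + n), cc s (p m) (p j) (p (j + 1))

theorem tele (f : ℕ → ℤ) (a b : ℕ) (h : a ≤ b) :
    ∑ j ∈ Ico a b, (f (j + 1) - f j) = f b - f a := by
  induction b, h using Nat.le_induction with
  | base => simp
  | succ b h ih => rw [Finset.sum_Ico_succ_top h, ih]; ring

variable {n : ℕ} {p : ℕ → ℕ}

theorem Poly.cell (P : Poly n s p) {i j : ℕ} (h1 : i + 2 ≤ j) (h2 : j + 2 ≤ i + n) :
    cc s (p i) (p j) (p (j + 1)) - cc s (p (i + 1)) (p j) (p (j + 1)) +
      ee s (p (j + 1)) (p i) (p (i + 1)) - ee s (p j) (p i) (p (i + 1)) = 0 :=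
  Refl.cell (P.ne _ _ (by omega) (by omega)) (P.ne _ _ (by omega) (by have := P.hn; omega))
    (P.ne _ _ (by omega) (by omega)) (P.ne _ _ (by omega) (by omega))
    (P.ne _ _ (by omega) (by omega)) (P.ne _ _ (by omega) (by omega)) (P.nc i j h1 h2)

theorem Poly.rowsum (P : Poly n s p) {i a b : ℕ} (h0 : a ≤ b) (h1 : i + 2 ≤ a)
    (h2 : b + 1 ≤ i + n) :
    (∑ j ∈ Ico a b, cc s (p i) (p j) (p (j + 1))) -
      (∑ j ∈ Ico a b, cc s (p (i + 1)) (p j) (p (j + 1))) +
      ee s (p b) (p i) (p (i + 1)) - ee s (p a) (p i) (p (i + 1)) = 0 := by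
  have h := tele (fun j => ee s (p j) (p i) (p (i + 1))) a b h0
  have h3 : ∑ j ∈ Ico a b, (cc s (p i) (p j) (p (j + 1)) - cc s (p (i + 1)) (p j) (p (j + 1)) +
      (ee s (p (j + 1)) (p i) (p (i + 1)) - ee s (p j) (p i) (p (i + 1)))) = 0 := by
    apply Finset.sum_eq_zero
    intro j hj
    rw [Finset.mem_Ico] at hj
    have := P.cell (i := i) (j := j) (by omega) (by omega)
    linarith
  rw [Finset.sum_add_distrib, Finset.sum_sub_distrib] at h3
  rw [h] at h3
  linarith

/-- the level relation along the edge from `p (k+1)` to `p (k+2)` -/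
theorem Poly.level (P : Poly n s p) (k : ℕ) :
    W s n p (k + 1) + td s p k = W s n p (k + 2) + tu s p (k + 1) := by
  have hn := P.hn
  obtain ⟨m, rfl⟩ : ∃ m, n = m + 3 := ⟨n - 3, by omega⟩
  have hr := P.rowsum (i := k + 1) (a := k + 3) (b := k + (m + 3)) (by omega) (by omega) (by omega)
  have hper : p (k + (m + 3)) = p k := P.per k
  have hper1 : p (k + (m + 3) + 1) = p (k + 1) := by
    have := P.per (k + 1); rw [← this]; congr 1; ring
  have hper2 : p (k + (m + 3) + 2) = p (k + 2) := by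
    have := P.per (k + 2); rw [← this]; congr 1; ring
  rw [hper] at hr
  have e1 : W s (m + 3) p (k + 1) = cc s (p (k + 1)) (p (k + 2)) (p (k + 3)) +
      ∑ j ∈ Ico (k + 3) (k + (m + 3)), cc s (p (k + 1)) (p j) (p (j + 1)) := by
    unfold W
    rw [Finset.sum_eq_sum_Ico_succ_bot (by omega), cc_self_left,
      Finset.sum_eq_sum_Ico_succ_bot (by omega),
      show k + 1 + (m + 3) = (k + (m + 3)) + 1 by ring,
      Finset.sum_Ico_succ_top (by omega), hper, hper1, cc_self_right]
    ring
  have e2 : W s (m + 3) p (k + 2) = cc s (p (k + 2)) (p k) (p (k + 1)) +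
      ∑ j ∈ Ico (k + 3) (k + (m + 3)), cc s (p (k + 2)) (p j) (p (j + 1)) := by
    unfold W
    rw [Finset.sum_eq_sum_Ico_succ_bot (by omega), cc_self_left,
      show k + 2 + (m + 3) = (k + (m + 3)) + 1 + 1 by ring,
      Finset.sum_Ico_succ_top (by omega), Finset.sum_Ico_succ_top (by omega), hper, hper1,
      show k + (m + 3) + 1 + 1 = k + (m + 3) + 2 by ring, hper2, cc_self_right]
    ring
  rw [e1, e2]
  unfold td tu
  simp only [show k + 1 + 1 = k + 2 by ring, show k + 1 + 2 = k + 3 by ring] at hr ⊢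
  linarith

theorem ee_zero_of_le {z a b : ℕ} (h1 : z ≤ a) (h2 : z ≤ b) : ee s z a b = 0 := by
  unfold ee; split_ifs <;> first | rfl | omega

theorem cc_zero_of_le {z a b : ℕ} (h1 : z ≤ a) (h2 : z ≤ b) : cc s z a b = 0 := by
  unfold cc; split_ifs <;> first | rfl | omega

/-- the turn at `b` on the way `a → b → c` is a left turn -/
def left (s : ℕ → ℕ → ℕ → Bool) (a b c : ℕ) : Bool :=
  if a < b then
    if b < c then s a b c
    else if a < c then !s a c b else s c a b
  else
    if c < b then !s c b a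
    else if c < a then s b c a else !s b a c

/-- Turning number, upward direction. -/
theorem Poly.turning_up (P : Poly n s p) (h0 : ∀ k, p 0 ≤ p k) :
    ∑ k ∈ range n, tu s p k =
      if left s (p (n - 1)) (p 0) (p 1) = true then 1 else -1 := by
  have hn := P.hn
  obtain ⟨m, rfl⟩ : ∃ m, n = m + 3 := ⟨n - 3, by omega⟩
  set T : ℕ → ℤ := fun i => ∑ j ∈ Ico (i + 1) (m + 3), cc s (p i) (p j) (p (j + 1)) with hT
  have hper : p (m + 3) = p 0 := by simpa using P.per 0
  have hper1 : p (m + 4) = p 1 := by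
    have := P.per 1; rw [← this]; congr 1; ring
  have step : ∀ i, i ≤ m → T (i + 1) - T (i + 2) = tu s p (i + 1) := by
    intro i hi
    have hr := P.rowsum (i := i + 1) (a := i + 3) (b := m + 3) (by omega) (by omega) (by omega)
    rw [hper, ee_zero_of_le (h0 _) (h0 _)] at hr
    simp only [hT]
    rw [Finset.sum_eq_sum_Ico_succ_bot (by omega)]
    unfold tu
    simp only [show i + 1 + 1 = i + 2 by ring, show i + 1 + 2 = i + 3 by ring] at hr ⊢
    linarith
  have hlast : T (m + 2) = 0 := by simp [hT]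
  have hsum : ∀ i, i ≤ m + 1 → T 1 - T (i + 1) = ∑ k ∈ range i, tu s p (k + 1) := by
    intro i
    induction i with
    | zero => intro _; simp
    | succ i ih =>
      intro hi
      rw [Finset.sum_range_succ, ← ih (by omega), ← step i (by omega)]
      ring
  have h1 := hsum (m + 1) le_rfl
  rw [hlast] at h1
  -- the first row
  have hr := P.rowsum (i := 0) (a := 2) (b := m + 2) (by omega) (by omega) (by omega)
  have hz : ∑ j ∈ Ico 2 (m + 2), cc s (p 0) (p j) (p (j + 1)) = 0 :=
    Finset.sum_eq_zero fun j _ => cc_zero_of_le (h0 _) (h0 _)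
  have hT1 : T 1 = (∑ j ∈ Ico 2 (m + 2), cc s (p 1) (p j) (p (j + 1))) +
      cc s (p 1) (p (m + 2)) (p 0) := by
    simp only [hT]
    rw [show m + 3 = (m + 2) + 1 by ring, Finset.sum_Ico_succ_top (by omega),
      show m + 2 + 1 = m + 3 by ring, hper]
  have hsplit : ∑ k ∈ range (m + 3), tu s p k =
      tu s p 0 + (∑ k ∈ range (m + 1), tu s p (k + 1)) + tu s p (m + 2) := by
    rw [Finset.sum_range_succ, show m + 2 = (m + 1) + 1 by ring, Finset.sum_range_succ']
    ring
  rw [hsplit, ← h1, hT1]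
  rw [hz] at hr
  simp only [show m + 3 - 1 = m + 2 by omega]
  have hlastt : tu s p (m + 2) = cc s (p (m + 2)) (p 0) (p 1) + ee s (p 1) (p (m + 2)) (p 0) := by
    unfold tu
    rw [show m + 2 + 1 = m + 3 by ring, show m + 2 + 2 = m + 4 by ring, hper, hper1]
  rw [hlastt]
  have h00 : tu s p 0 = ee s (p 2) (p 0) (p 1) := by
    unfold tu
    rw [cc_zero_of_le (h0 _) (h0 _)]
    simp
  rw [h00]
  simp only [zero_add] at hr
  -- the local computation at `p 0`
  have n01 : p 0 ≠ p 1 := P.ne 0 1 (by omega) (by omega)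
  have n0m : p 0 ≠ p (m + 2) := P.ne 0 (m + 2) (by omega) (by omega)
  have n1m : p 1 ≠ p (m + 2) := P.ne 1 (m + 2) (by omega) (by omega)
  have l01 : p 0 < p 1 := lt_of_le_of_ne (h0 1) n01
  have l0m : p 0 < p (m + 2) := lt_of_le_of_ne (h0 (m + 2)) n0m
  have key : ee s (p (m + 2)) (p 0) (p 1) + cc s (p 1) (p (m + 2)) (p 0) +
      cc s (p (m + 2)) (p 0) (p 1) + ee s (p 1) (p (m + 2)) (p 0) =
      if left s (p (m + 2)) (p 0) (p 1) = true then 1 else -1 := by
    generalize p 0 = a at *
    generalize p 1 = b at *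
    generalize p (m + 2) = c at *
    clear hr h1 hsum step hT1 hsplit hlastt h00 hz hlast hper hper1 P h0 hT T
    unfold ee cc left
    rcases Nat.lt_or_gt_of_ne n1m with h | h
    · rcases hh : s a b c <;> grind
    · rcases hh : s a c b <;> grind
  linarith


theorem sum_shift (f : ℕ → ℤ) (n : ℕ) (h : f n = f 0) :
    ∑ k ∈ range n, f (k + 1) = ∑ k ∈ range n, f k := by
  have h1 := Finset.sum_range_succ f n
  have h2 := Finset.sum_range_succ' f n
  rw [h1] at h2
  linarith

theorem Poly.W_per (P : Poly n s p) (m : ℕ) : W s n p (m + n) = W s n p m := by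
  unfold W
  rw [P.per m, Finset.sum_Ico_add' (fun j => cc s (p m) (p j) (p (j + 1))) m (m + n) n |>.symm]
  apply Finset.sum_congr rfl
  intro j _
  rw [P.per j, show j + n + 1 = (j + 1) + n by ring, P.per (j + 1)]

theorem Poly.sum_td (P : Poly n s p) :
    ∑ k ∈ range n, td s p k = ∑ k ∈ range n, tu s p k := by
  have h1 : ∑ k ∈ range n, (W s n p (k + 1) + td s p k) =
      ∑ k ∈ range n, (W s n p (k + 2) + tu s p (k + 1)) :=
    Finset.sum_congr rfl fun k _ => P.level k
  rw [Finset.sum_add_distrib, Finset.sum_add_distrib] at h1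
  have h2 : ∑ k ∈ range n, W s n p (k + 2) = ∑ k ∈ range n, W s n p (k + 1) := by
    apply sum_shift (fun k => W s n p (k + 1))
    have := P.W_per 1
    rw [show n + 1 = 1 + n by ring]; simpa using this
  have h3 : ∑ k ∈ range n, tu s p (k + 1) = ∑ k ∈ range n, tu s p k := by
    apply sum_shift
    unfold tu
    have e0 : p n = p 0 := by simpa using P.per 0
    have e1 : p (n + 1) = p 1 := by rw [show n + 1 = 1 + n by ring]; exact P.per 1
    have e2 : p (n + 2) = p 2 := by rw [show n + 2 = 2 + n by ring]; exact P.per 2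
    rw [e0, e1, e2]
  rw [h2, h3] at h1
  linarith

/-- both neighbours of `b` are on the same side -/
def ext (a b c : ℕ) : Prop := (a < b ∧ c < b) ∨ (b < a ∧ b < c)

instance (a b c : ℕ) : Decidable (ext a b c) := by unfold ext; infer_instance

/-- the path `a, b, c` or `c, b, a`, monotone, has `b` above the line `ac` -/
def cap (s : ℕ → ℕ → ℕ → Bool) (a b c : ℕ) : Bool := if a < c then !s a b c else !s c b a

/-- leftward edge -/
def lw (a b : ℕ) : ℤ := if b < a then 1 else 0

theorem local_const {a b c : ℕ} (h1 : a ≠ b) (h2 : b ≠ c) (h3 : a ≠ c) :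
    (cc s c a b + ee s a b c) - (cc s a b c + ee s c a b) + lw b c - lw a b = 0 := by
  unfold cc ee lw
  rcases Nat.lt_or_gt_of_ne h1 with x | x <;> rcases Nat.lt_or_gt_of_ne h2 with y | y <;>
    rcases Nat.lt_or_gt_of_ne h3 with z | z <;>
    first
    | (exfalso; omega)
    | grind (splits := 20)

theorem local_h {a b c : ℕ} (h1 : a ≠ b) (h2 : b ≠ c) (h3 : a ≠ c) (L : Bool) :
    (if ext a b c then (if left s a b c ≠ L then (-1 : ℤ) else 1) else 0) =
      (if L = true then 1 else -1) *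
        ((cc s a b c + ee s c a b) + (cc s c a b + ee s a b c)) := by
  unfold cc ee left ext
  rcases Nat.lt_or_gt_of_ne h1 with x | x <;> rcases Nat.lt_or_gt_of_ne h2 with y | y <;>
    rcases Nat.lt_or_gt_of_ne h3 with z | z <;>
    first
    | (exfalso; omega)
    | (cases L <;> grind (splits := 20))

theorem local_w {a b c : ℕ} (h1 : a ≠ b) (h2 : b ≠ c) (h3 : a ≠ c) (L : Bool) (w : ℤ)
    (hw : w = (if L = true then 1 else 0) - (cc s c a b + ee s a b c) - lw b c) :
    (left s a b c ≠ L) ↔ (if ext a b c then w % 2 = 1 else (w % 2 = 1 ↔ cap s a b c = true)) := by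
  subst hw
  unfold cc ee lw left ext cap
  rcases Nat.lt_or_gt_of_ne h1 with x | x <;> rcases Nat.lt_or_gt_of_ne h2 with y | y <;>
    rcases Nat.lt_or_gt_of_ne h3 with z | z <;>
    first
    | (exfalso; omega)
    | (cases L <;> grind (splits := 20))

end Pool.Agent.H41.Refl
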