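import Pool.Agent.H41.Refl.A

/-!
# The local configurations at a cluster of ten points

Local points `0, …, 9` with coordinates `(X i, Y i)`; a cluster sees the earlier clusters in the
direction `(-1, 0)` and the later ones in the direction `(0, -1)`.  Codes of neighbours: `0, …, 9`
local points, `10` an earlier cluster, `11` a later cluster.
-/

set_option autoImplicit false

namespace Pool.Agent.H41.Refl

/-- abscissas of the ten points of a cluster -/
def X (i : ℕ) : ℕ := [0, 1, 4, 5, 7, 8, 9, 17, 18, 21].getD i 0

/-- ordinates of the ten points of a cluster -/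
def Y (i : ℕ) : ℕ := [0, 1, 30, 40, 29, 24, 23, 21, 19, 22].getD i 0

/-- the local orientation -/
def loc (i j k : ℕ) : Bool :=
  Nat.blt (X j * Y i + X i * Y k + X k * Y j) (X j * Y k + X i * Y j + X k * Y i)

/-- order of the ordinates -/
def bl (i j : ℕ) : Bool := Nat.blt (Y i) (Y j)

/-- virtual position of a code -/
def vp (o : ℕ) : ℕ := if o = 10 then 0 else if o = 11 then 11 else o + 1

/-- signs for virtual positions -/
def sv (i j k : ℕ) : Bool :=
  if k = 11 then false else if i = 0 then bl (j - 1) (k - 1) else loc (i - 1) (j - 1) (k - 1)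

instance (s : ℕ → ℕ → ℕ → Bool) (a b c d : ℕ) : Decidable (NC0 s a b c d) := by
  unfold NC0; infer_instance

instance (s : ℕ → ℕ → ℕ → Bool) (a b c d : ℕ) : Decidable (NC s a b c d) := by
  unfold NC; infer_instance

/-- the elements `(c, o)` and `(c', o')` cross -/
def xing (c o c' o' : ℕ) : Bool :=
  decide (c + 1 ≠ c' + 1 ∧ c + 1 ≠ vp o' ∧ vp o ≠ c' + 1 ∧ vp o ≠ vp o' ∧
    ¬ NC sv (c + 1) (vp o) (c' + 1) (vp o'))

/-- the edge `ab` is above `z` -/
def ab (s : ℕ → ℕ → ℕ → Bool) (z a b : ℕ) : Bool :=
  decide ((b < z ∧ z < a ∧ s b z a = true) ∨ (a < z ∧ z < b ∧ s a z b = true))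

def bits (f : ℕ → Bool) : ℕ → ℕ
  | 0 => 0
  | n + 1 => bif f n then Nat.lor (bits f n) (2 ^ n) else bits f n

theorem testBit_bits (f : ℕ → Bool) (n i : ℕ) :
    (bits f n).testBit i = (decide (i < n) && f i) := by
  induction n with
  | zero => simp [bits]
  | succ n ih =>
    unfold bits
    rcases hf : f n
    · simp only [cond_false, ih]
      by_cases hi : i = n
      · subst hi; simp [hf]
      · have : (i < n + 1) ↔ i < n := by omega
        simp [this]
    · simp only [cond_true]
      change (bits f n ||| 2 ^ n).testBit i = _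
      rw [Nat.testBit_or, ih, Nat.testBit_two_pow]
      by_cases hi : i = n
      · subst hi; simp [hf]
      · have : (i < n + 1) ↔ i < n := by omega
        have h2 : ¬ n = i := fun h => hi h.symm
        simp [this, h2]

structure C where
  o : ℕ
  e : ℕ
  k : ℕ
  t : ℕ
  q : ℕ
  wb : ℕ
  rb : ℕ
deriving DecidableEq

structure V where
  vb : ℕ
  sh : ℕ
  cs : List C
deriving DecidableEq

def kmask (c o : ℕ) : ℕ := bits (fun i => xing c o (i / 12) (i % 12)) (12 * c)
def tmask (c o : ℕ) : ℕ := bits (fun a => ab sv (a + 1) (vp o) (c + 1)) c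
def qmask (c o : ℕ) : ℕ := bits (fun r => decide (c < r) && cap sv (vp o) (c + 1) (r + 1)) 10
def wbit (o : ℕ) : ℕ := bif Nat.blt o 10 then 2 ^ o else 0
def rbit (c o : ℕ) : ℕ := bif Nat.blt o 10 then 2 ^ (16 * o + c) else 0

def specC (c o : ℕ) : C :=
  ⟨o, 2 ^ (12 * c + o), kmask c o, tmask c o, qmask c o, wbit o, rbit c o⟩

def specV (c : ℕ) : V := ⟨2 ^ c, 16 * c, (10 :: 11 :: List.range c).map (specC c)⟩

def tab : ℕ → List V
  | 0 => []
  | k + 1 => specV k :: tab k

/-- evaluate `n` before it is used -/
def force {α : Type} (n : ℕ) (f : ℕ → α) : α := Nat.rec (f 0) (fun m _ => f (Nat.succ m)) n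

theorem force_eq {α : Type} (n : ℕ) (f : ℕ → α) : force n f = f n := by
  cases n <;> rfl

def allC (f : C → Bool) : List C → Bool
  | [] => true
  | x :: l => bif f x then allC f l else false

theorem allC_mem {f : C → Bool} {l : List C} (h : allC f l = true) {x : C} (hx : x ∈ l) :
    f x = true := by
  induction l with
  | nil => simp at hx
  | cons y l ih =>
    unfold allC at h
    rcases hy : f y
    · simp [hy] at h
    · rw [hy] at h
      simp only [cond_true] at h
      rcases List.mem_cons.1 hx with rfl | hx
      · exact hy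
      · exact ih h hx

def pairs (f : C → C → Bool) : List C → Bool
  | [] => true
  | x :: l => bif (bif Nat.ble 10 x.o then f x x else true) then
      (bif allC (f x) l then pairs f l else false) else false

theorem pairs_self {f : C → C → Bool} {l : List C} (h : pairs f l = true) {x : C} (hx : x ∈ l)
    (h10 : 10 ≤ x.o) : f x x = true := by
  induction l with
  | nil => simp at hx
  | cons y l ih =>
    unfold pairs at h
    rcases h1 : (bif Nat.ble 10 y.o then f y y else true)
    · rw [h1] at h; simp at h
    · rw [h1] at h
      simp only [cond_true] at h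
      rcases h2 : allC (f y) l
      · rw [h2] at h; simp at h
      · rw [h2] at h
        simp only [cond_true] at h
        rcases List.mem_cons.1 hx with rfl | hx
        · have : Nat.ble 10 x.o = true := by rw [Nat.ble_eq]; exact h10
          rw [this] at h1
          simpa using h1
        · exact ih h hx

theorem pairs_mem {f : C → C → Bool} {l : List C} (h : pairs f l = true) {x y : C}
    (hxy : List.Sublist [x, y] l) : f x y = true := by
  induction l with
  | nil => simp at hxy
  | cons z l ih =>
    unfold pairs at h
    rcases h1 : (bif Nat.ble 10 z.o then f z z else true)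
    · rw [h1] at h; simp at h
    · rw [h1] at h
      simp only [cond_true] at h
      rcases h2 : allC (f z) l
      · rw [h2] at h; simp at h
      · rw [h2] at h
        simp only [cond_true] at h
        cases hxy with
        | cons _ h3 => exact ih h h3
        | cons_cons _ h3 => exact allC_mem h2 (List.singleton_sublist.1 h3)

/-- extremum -/
def wE (P vb : ℕ) : ℕ := bif Nat.beq (Nat.land P vb) 0 then 2 else 1

/-- monotone, at a cap -/
def wC (P vb : ℕ) : ℕ := bif Nat.beq (Nat.land P vb) 0 then 0 else 3

/-- monotone, not a cap -/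
def wU (P vb : ℕ) : ℕ := bif Nat.beq (Nat.land P vb) 0 then 3 else 0

/-- the search -/
def go : List V → ℕ → ℕ → ℕ → ℕ → ℕ → ℕ → Bool
  | [], _, _, _, _, _, c => Nat.ble 8 c
  | ⟨vb, sh, cs⟩ :: l, R, F1, F2, B, P, c =>
    bif Nat.beq (Nat.land F2 vb) 0 then
      bif Nat.beq (Nat.land F1 vb) 0 then
        pairs (fun ⟨o, e, k, t, _, wb, rb⟩ ⟨o', e', k', t', _, wb', rb'⟩ =>
          bif Nat.beq (Nat.add (Nat.land B (Nat.lor e e')) (Nat.land F2 (Nat.lor wb wb'))) 0 then
            force (Nat.add c (bif Nat.beq o 11 then (bif Nat.beq o' 11 then wE P vb else wC P vb)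
              else (bif Nat.beq o' 11 then wC P vb else wE P vb))) fun c' =>
            bif Nat.ble 8 c' then true else
              force (Nat.lor (Nat.lor R rb) rb') fun R =>
              force (Nat.lor F2 (Nat.land F1 (Nat.lor wb wb'))) fun F2' =>
              force (Nat.lor (Nat.lor F1 wb) wb') fun F1 =>
              force (Nat.lor (Nat.lor B k) k') fun B =>
              force (Nat.xor (Nat.xor P t) t') fun P => go l R F1 F2' B P c'
          else true) cs
      else
        force (Nat.land (Nat.shiftRight R sh) 65535) fun rm =>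
        allC (fun ⟨o, e, k, t, q, wb, rb⟩ =>
          bif Nat.beq (Nat.add (Nat.land B e) (Nat.land F2 wb)) 0 then
            force (Nat.add c (bif Nat.beq o 11 then wE P vb else
              (bif Nat.beq (Nat.land rm q) 0 then wU P vb else wC P vb))) fun c' =>
            bif Nat.ble 8 c' then true else
              force (Nat.lor R rb) fun R =>
              force (Nat.lor F2 (Nat.land F1 wb)) fun F2' =>
              force (Nat.lor F1 wb) fun F1 =>
              force (Nat.lor B k) fun B =>
              force (Nat.xor P t) fun P => go l R F1 F2' B P c'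
          else true) cs
    else
      force (Nat.add c (wE P vb)) fun c' =>
        bif Nat.ble 8 c' then true else go l R F1 F2 B P c'

end Pool.Agent.H41.Refl
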