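import Pool.Agent.H41.Refl.Top

/-! The search, carried out by the kernel: part 2. -/

set_option autoImplicit false

namespace Pool.Agent.H41.Refl

theorem r1_1 : br 1 1 = true := by decide +kernel

theorem r1_2 : br 1 2 = true := by decide +kernel

theorem r1_3 : br 1 3 = true := by decide +kernel

theorem r1_4 : br 1 4 = true := by decide +kernel

theorem r1_5 : br 1 5 = true := by decide +kernel


end Pool.Agent.H41.Refl
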