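import Pool.Agent.H41.Refl.Top

/-! The search, carried out by the kernel: part 3. -/

set_option autoImplicit false

namespace Pool.Agent.H41.Refl

theorem r1_6 : br 1 6 = true := by decide +kernel

theorem r1_7 : br 1 7 = true := by decide +kernel

theorem r1_8 : br 1 8 = true := by decide +kernel

theorem r1_9 : br 1 9 = true := by decide +kernel

theorem r1_10 : br 1 10 = true := by decide +kernel


end Pool.Agent.H41.Refl
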