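import Pool.Agent.H41.Refl.Top

/-! The search, carried out by the kernel: part 4. -/

set_option autoImplicit false

namespace Pool.Agent.H41.Refl

theorem r5_6 : br 5 6 = true := by decide +kernel

theorem r5_7 : br 5 7 = true := by decide +kernel

theorem r5_8 : br 5 8 = true := by decide +kernel

theorem r5_9 : br 5 9 = true := by decide +kernel

theorem r5_10 : br 5 10 = true := by decide +kernel


end Pool.Agent.H41.Refl
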