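import Pool.Agent.H41.Refl.ChkA
import Pool.Agent.H41.Refl.ChkB
import Pool.Agent.H41.Refl.ChkC
import Pool.Agent.H41.Refl.ChkD

/-! The search, carried out by the kernel. -/

set_option autoImplicit false

namespace Pool.Agent.H41.Refl

theorem search : go table 0 0 0 0 0 0 = true := by
  apply search_of (r0 0 (by omega)) r1_1
  intro j hj i hij
  by_cases h0 : i = 0
  · subst h0; exact r0 j hj
  by_cases h2 : i = 2
  · subst h2; exact r2 j hj hij
  by_cases h3 : i = 3
  · subst h3; exact r3 j hj hij
  by_cases h4 : i = 4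
  · subst h4; exact r4 j hj hij
  by_cases h6 : i = 6
  · subst h6; exact r6 j hj hij
  by_cases h7 : i = 7
  · subst h7; exact r7 j hj hij
  by_cases h8 : i = 8
  · subst h8; exact r8 j hj hij
  by_cases h9 : i = 9
  · subst h9; exact r9 j hj hij
  by_cases h1 : i = 1
  · subst h1
    interval_cases j
    exacts [r1_2, r1_3, r1_4, r1_5, r1_6, r1_7, r1_8, r1_9, r1_10]
  by_cases h5 : i = 5
  · subst h5
    interval_cases j
    exacts [r5_6, r5_7, r5_8, r5_9, r5_10]
  omega

end Pool.Agent.H41.Refl
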