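import Pool.Agent.H41.Refl.Top

/-! The search, carried out by the kernel: part 1. -/

set_option autoImplicit false

namespace Pool.Agent.H41.Refl

theorem r0 : ∀ j < 11, br 0 j = true := by decide +kernel

theorem r2 : ∀ j < 11, 2 < j → br 2 j = true := by decide +kernel

theorem r3 : ∀ j < 11, 3 < j → br 3 j = true := by decide +kernel

theorem r4 : ∀ j < 11, 4 < j → br 4 j = true := by decide +kernel

theorem r6 : ∀ j < 11, 6 < j → br 6 j = true := by decide +kernel

theorem r7 : ∀ j < 11, 7 < j → br 7 j = true := by decide +kernel

theorem r8 : ∀ j < 11, 8 < j → br 8 j = true := by decide +kernel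

theorem r9 : ∀ j < 11, 9 < j → br 9 j = true := by decide +kernel


end Pool.Agent.H41.Refl
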