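import Pool.Agent.H41.Refl.B

/-! Soundness of the search. -/

set_option autoImplicit false

namespace Pool.Agent.H41.Refl

/-- local weight: 3 for a reflex vertex with neighbours on both sides, 1 (2) for a reflex (convex)
vertex with both neighbours on one side, 0 otherwise; `par` tells whether the number of edges above
the vertex is odd -/
def wgt (s : ℕ → ℕ → ℕ → Bool) (par : Bool) (a b c : ℕ) : ℕ :=
  if ext a b c then (if par then 1 else 2) else (if par = cap s a b c then 3 else 0)

theorem land_pow (x i : ℕ) : Nat.land x (2 ^ i) = 0 ↔ x.testBit i = false := by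
  change x &&& 2 ^ i = 0 ↔ _
  rw [Nat.and_two_pow]
  rcases h : x.testBit i <;> simp

theorem beq_land_pow (x i : ℕ) : Nat.beq (Nat.land x (2 ^ i)) 0 = !x.testBit i := by
  rcases h : x.testBit i
  · simp only [Bool.not_false]
    rw [Nat.beq_eq]; exact (land_pow x i).2 h
  · simp only [Bool.not_true]
    rw [← Bool.not_eq_true, Nat.beq_eq, land_pow, h]; simp

theorem wE_eq (P k : ℕ) : wE P (2 ^ k) = if P.testBit k then 1 else 2 := by
  unfold wE; rw [beq_land_pow]; rcases P.testBit k <;> rfl
theorem wC_eq (P k : ℕ) : wC P (2 ^ k) = if P.testBit k then 3 else 0 := by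
  unfold wC; rw [beq_land_pow]; rcases P.testBit k <;> rfl
theorem wU_eq (P k : ℕ) : wU P (2 ^ k) = if P.testBit k then 0 else 3 := by
  unfold wU; rw [beq_land_pow]; rcases P.testBit k <;> rfl

theorem ble_cases {c : ℕ} {g : Bool} (h : (bif Nat.ble 8 c then true else g) = true) :
    8 ≤ c ∨ g = true := by
  rcases h1 : Nat.ble 8 c
  · rw [h1] at h; right; simpa using h
  · left; rwa [Nat.ble_eq] at h1

/-- no neighbour left to choose -/
theorem go_none {k R F1 F2 B P c : ℕ}
    (h : go (tab (k + 1)) R F1 F2 B P c = true) (h2 : F2.testBit k = true) :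
    8 ≤ c + (if P.testBit k then 1 else 2) ∨
      go (tab k) R F1 F2 B P (c + (if P.testBit k then 1 else 2)) = true := by
  unfold tab specV at h
  unfold go at h
  rw [beq_land_pow, h2] at h
  simp only [Bool.not_true, cond_false, force_eq] at h
  rw [wE_eq] at h
  exact ble_cases h

theorem specC_mem {k o : ℕ} (ho : o < k ∨ o = 10 ∨ o = 11) :
    specC k o ∈ (10 :: 11 :: List.range k).map (specC k) := by
  apply List.mem_map_of_mem
  rcases ho with ho | rfl | rfl
  · exact List.mem_cons_of_mem _ (List.mem_cons_of_mem _ (List.mem_range.2 ho))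
  · simp
  · simp

theorem wbit_bit (o w : ℕ) (hw : w < 10) : (wbit o).testBit w = decide (o = w) := by
  unfold wbit
  rcases h : Nat.blt o 10
  · simp only [cond_false, Nat.zero_testBit]
    symm; rw [decide_eq_false_iff_not]; rintro rfl
    rw [← Bool.not_eq_true] at h
    exact h (by simpa [Nat.blt_eq] using hw)
  · simp only [cond_true]
    rw [Nat.testBit_two_pow]

theorem wbit_leg {o : ℕ} (h : 10 ≤ o) : wbit o = 0 := by
  unfold wbit
  have : Nat.blt o 10 = false := by
    rw [← Bool.not_eq_true, Nat.blt_eq]; omega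
  rw [this]; rfl

theorem wbit_loc {o : ℕ} (h : o < 10) : wbit o = 2 ^ o := by
  unfold wbit
  have : Nat.blt o 10 = true := by rw [Nat.blt_eq]; omega
  rw [this]; rfl

theorem land_wbit {F o : ℕ} (h : o < 10 → F.testBit o = false) : Nat.land F (wbit o) = 0 := by
  by_cases ho : o < 10
  · rw [wbit_loc ho, land_pow]; exact h ho
  · rw [wbit_leg (by omega)]; exact Nat.and_zero F

theorem beq11 (o : ℕ) : Nat.beq o 11 = decide (o = 11) := by
  rcases h : Nat.beq o 11
  · rw [← Bool.not_eq_true, Nat.beq_eq] at h; simp [h]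
  · rw [Nat.beq_eq] at h; simp [h]

/-- one neighbour to choose -/
theorem go_one {k R F1 F2 B P c o r : ℕ}
    (h : go (tab (k + 1)) R F1 F2 B P c = true) (h2 : F2.testBit k = false)
    (h1 : F1.testBit k = true) (ho : o < k ∨ o = 10 ∨ o = 11)
    (hB : B.testBit (12 * k + o) = false) (hF : o < 10 → F2.testBit o = false)
    (hr : r < 10) (hkr : k < r) (hR : ∀ j < 16, R.testBit (16 * k + j) = decide (j = r)) :
    ∃ w, w = wgt sv (P.testBit k) (vp o) (k + 1) (r + 1) ∧ (8 ≤ c + w ∨
      go (tab k) (R ||| rbit k o) (F1 ||| wbit o) (F2 ||| (F1 &&& wbit o)) (B ||| kmask k o)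
        (P ^^^ tmask k o) (c + w) = true) := by
  refine ⟨_, rfl, ?_⟩
  unfold tab specV at h
  unfold go at h
  rw [beq_land_pow, h2] at h
  simp only [Bool.not_false, cond_true] at h
  rw [beq_land_pow, h1] at h
  simp only [Bool.not_true, cond_false, force_eq] at h
  have h3 := allC_mem h (specC_mem ho)
  simp only [specC] at h3
  have hfree : Nat.beq (Nat.add (Nat.land B (2 ^ (12 * k + o))) (Nat.land F2 (wbit o))) 0 = true := by
    rw [Nat.beq_eq, (land_pow _ _).2 hB, land_wbit hF]
  rw [hfree] at h3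
  simp only [cond_true] at h3
  have hrm : Nat.beq (Nat.land (Nat.land (Nat.shiftRight R (16 * k)) 65535) (qmask k o)) 0 =
      !(qmask k o).testBit r := by
    have e : Nat.land (Nat.shiftRight R (16 * k)) 65535 = 2 ^ r := by
      apply Nat.eq_of_testBit_eq
      intro i
      change ((R >>> (16 * k)) &&& (2 ^ 16 - 1)).testBit i = _
      rw [Nat.testBit_and, Nat.testBit_shiftRight, Nat.testBit_two_pow_sub_one, Nat.testBit_two_pow]
      by_cases hi : i < 16
      · rw [hR i hi]; simp [hi, eq_comm]
      · simp [hi]; omega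
    rw [e]
    have : Nat.land (2 ^ r) (qmask k o) = Nat.land (qmask k o) (2 ^ r) := Nat.and_comm _ _
    rw [this, beq_land_pow]
  rw [hrm, beq11, wE_eq, wC_eq, wU_eq] at h3
  have hq : (qmask k o).testBit r = cap sv (vp o) (k + 1) (r + 1) := by
    unfold qmask; rw [testBit_bits]; simp [hr, hkr]
  rw [hq] at h3
  have hw : (bif decide (o = 11) then (if P.testBit k then 1 else 2)
      else bif !cap sv (vp o) (k + 1) (r + 1) then (if P.testBit k then 0 else 3)
        else (if P.testBit k then 3 else 0)) =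
      wgt sv (P.testBit k) (vp o) (k + 1) (r + 1) := by
    unfold wgt
    by_cases h11 : o = 11
    · have : ext (vp o) (k + 1) (r + 1) := by
        unfold ext vp; subst h11; simp; omega
      rw [if_pos this]; simp [h11]
    · have : ¬ ext (vp o) (k + 1) (r + 1) := by
        unfold ext vp; split_ifs <;> omega
      rw [if_neg this]
      generalize cap sv (vp o) (k + 1) (r + 1) = x
      cases x <;> cases P.testBit k <;> simp [h11]
  rw [hw] at h3
  exact ble_cases h3

/-- two neighbours to choose -/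
theorem go_two {k R F1 F2 B P c o o' : ℕ}
    (h : go (tab (k + 1)) R F1 F2 B P c = true) (h2 : F2.testBit k = false)
    (h1 : F1.testBit k = false) (ho : o < k ∨ o = 10 ∨ o = 11) (ho' : o' < k ∨ o' = 10 ∨ o' = 11)
    (hk : k < 10)
    (hoo : (o = o' ∧ 10 ≤ o) ∨ List.Sublist [o, o'] (10 :: 11 :: List.range k))
    (hB : B.testBit (12 * k + o) = false) (hF : o < 10 → F2.testBit o = false)
    (hB' : B.testBit (12 * k + o') = false) (hF' : o' < 10 → F2.testBit o' = false) :
    ∃ w, w = wgt sv (P.testBit k) (vp o) (k + 1) (vp o') ∧ (8 ≤ c + w ∨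
      go (tab k) ((R ||| rbit k o) ||| rbit k o') ((F1 ||| wbit o) ||| wbit o')
        (F2 ||| (F1 &&& (wbit o ||| wbit o'))) ((B ||| kmask k o) ||| kmask k o')
        ((P ^^^ tmask k o) ^^^ tmask k o') (c + w) = true) := by
  refine ⟨_, rfl, ?_⟩
  unfold tab specV at h
  unfold go at h
  rw [beq_land_pow, h2] at h
  simp only [Bool.not_false, cond_true] at h
  rw [beq_land_pow, h1] at h
  simp only [Bool.not_false, cond_true, force_eq] at h
  have key : ∀ f : C → C → Bool, pairs f ((10 :: 11 :: List.range k).map (specC k)) = true →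
      f (specC k o) (specC k o') = true := by
    intro f hf
    rcases hoo with ⟨rfl, h10⟩ | hs
    · exact pairs_self hf (specC_mem ho) h10
    · exact pairs_mem hf (x := specC k o) (y := specC k o') (hs.map (specC k))
  have h3 := key _ h
  simp only [specC] at h3
  have hfree : Nat.beq (Nat.add (Nat.land B (Nat.lor (2 ^ (12 * k + o)) (2 ^ (12 * k + o'))))
      (Nat.land F2 (Nat.lor (wbit o) (wbit o')))) 0 = true := by
    rw [Nat.beq_eq]
    have e1 : Nat.land B (Nat.lor (2 ^ (12 * k + o)) (2 ^ (12 * k + o'))) = 0 := by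
      change B &&& (2 ^ (12 * k + o) ||| 2 ^ (12 * k + o')) = 0
      rw [Nat.and_or_distrib_left]
      have x1 : B &&& 2 ^ (12 * k + o) = 0 := (land_pow _ _).2 hB
      have x2 : B &&& 2 ^ (12 * k + o') = 0 := (land_pow _ _).2 hB'
      rw [x1, x2]; rfl
    have e2 : Nat.land F2 (Nat.lor (wbit o) (wbit o')) = 0 := by
      change F2 &&& (wbit o ||| wbit o') = 0
      rw [Nat.and_or_distrib_left]
      have x1 : F2 &&& wbit o = 0 := land_wbit hF
      have x2 : F2 &&& wbit o' = 0 := land_wbit hF'
      rw [x1, x2]; rfl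
    rw [e1, e2]
  rw [hfree] at h3
  simp only [cond_true] at h3
  rw [beq11, beq11, wE_eq, wC_eq] at h3
  have hw : (bif decide (o = 11) then
        (bif decide (o' = 11) then (if P.testBit k then 1 else 2) else (if P.testBit k then 3 else 0))
      else bif decide (o' = 11) then (if P.testBit k then 3 else 0)
        else (if P.testBit k then 1 else 2)) =
      wgt sv (P.testBit k) (vp o) (k + 1) (vp o') := by
    have hv : ∀ x, x < k → vp x = x + 1 := fun x hx => by
      unfold vp; rw [if_neg (by omega), if_neg (by omega)]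
    have hx : ∀ x, x < k → ¬ x = 11 := fun x hx => by omega
    unfold wgt
    rcases ho with h | rfl | rfl <;> rcases ho' with h' | rfl | rfl
    · have : ext (vp o) (k + 1) (vp o') := by
        rw [hv _ h, hv _ h']; unfold ext; omega
      simp [this, hx _ h, hx _ h']
    · have : ext (vp o) (k + 1) (vp 10) := by
        rw [hv _ h]; unfold ext vp; simp; omega
      simp [this, hx _ h]
    · have : ¬ ext (vp o) (k + 1) (vp 11) := by
        rw [hv _ h]; unfold ext vp; simp; omega
      have hc : cap sv (vp o) (k + 1) (vp 11) = true := by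
        rw [hv _ h]; unfold cap vp sv; simp; omega
      rw [if_neg this, hc]
      cases P.testBit k <;> simp [hx _ h]
    · have : ext (vp 10) (k + 1) (vp o') := by
        rw [hv _ h']; unfold ext vp; simp; omega
      simp [this, hx _ h']
    · have : ext (vp 10) (k + 1) (vp 10) := by
        unfold ext vp; simp
      simp [this]
    · have : ¬ ext (vp 10) (k + 1) (vp 11) := by
        unfold ext vp; simp; omega
      have hc : cap sv (vp 10) (k + 1) (vp 11) = true := by
        unfold cap vp sv; simp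
      rw [if_neg this, hc]
      cases P.testBit k <;> simp
    · have : ¬ ext (vp 11) (k + 1) (vp o') := by
        rw [hv _ h']; unfold ext vp; simp; omega
      have hc : cap sv (vp 11) (k + 1) (vp o') = true := by
        rw [hv _ h']; unfold cap vp sv; simp; omega
      rw [if_neg this, hc]
      cases P.testBit k <;> simp [hx _ h']
    · have : ¬ ext (vp 11) (k + 1) (vp 10) := by
        unfold ext vp; simp; omega
      have hc : cap sv (vp 11) (k + 1) (vp 10) = true := by
        unfold cap vp sv; simp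
      rw [if_neg this, hc]
      cases P.testBit k <;> simp
    · have : ext (vp 11) (k + 1) (vp 11) := by
        unfold ext vp; simp; omega
      simp [this]
  rw [hw] at h3
  exact ble_cases h3


/-! ### states -/

def fR : List (ℕ × ℕ) → ℕ
  | [] => 0
  | e :: l => fR l ||| rbit e.1 e.2

def f1 : List (ℕ × ℕ) → ℕ
  | [] => 0
  | e :: l => f1 l ||| wbit e.2

def f2 : List (ℕ × ℕ) → ℕ
  | [] => 0
  | e :: l => f2 l ||| (f1 l &&& wbit e.2)

def fB : List (ℕ × ℕ) → ℕ
  | [] => 0
  | e :: l => fB l ||| kmask e.1 e.2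

def fP : List (ℕ × ℕ) → ℕ
  | [] => 0
  | e :: l => fP l ^^^ tmask e.1 e.2

theorem f1_bit (l : List (ℕ × ℕ)) {w : ℕ} (hw : w < 10) :
    (f1 l).testBit w = true ↔ ∃ c, (c, w) ∈ l := by
  induction l with
  | nil => simp [f1]
  | cons e l ih =>
    unfold f1
    rw [Nat.testBit_or, Bool.or_eq_true, ih, wbit_bit _ _ hw, decide_eq_true_iff]
    constructor
    · rintro (⟨c, hc⟩ | h)
      · exact ⟨c, List.mem_cons_of_mem _ hc⟩
      · exact ⟨e.1, by rw [← h]; exact List.mem_cons_self⟩
    · rintro ⟨c, hc⟩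
      rcases List.mem_cons.1 hc with h | h
      · right; rw [← h]
      · left; exact ⟨c, h⟩

theorem f2_bit_of (l : List (ℕ × ℕ)) {w c c' : ℕ} (hw : w < 10) (hc : (c, w) ∈ l)
    (hc' : (c', w) ∈ l) (hne : c ≠ c') : (f2 l).testBit w = true := by
  induction l with
  | nil => simp at hc
  | cons e l ih =>
    unfold f2
    rw [Nat.testBit_or, Nat.testBit_and, Bool.or_eq_true, Bool.and_eq_true, wbit_bit _ _ hw,
      decide_eq_true_iff]
    rcases List.mem_cons.1 hc with h | h <;> rcases List.mem_cons.1 hc' with h' | h'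
    · exact absurd (by rw [Prod.ext_iff] at h h'; exact h.1.trans h'.1.symm) hne
    · right; exact ⟨(f1_bit l hw).2 ⟨c', h'⟩, by rw [← h]⟩
    · right; exact ⟨(f1_bit l hw).2 ⟨c, h⟩, by rw [← h']⟩
    · left; exact ih h h'

theorem of_f2_bit (l : List (ℕ × ℕ)) {w : ℕ} (hw : w < 10)
    (hl : l.Pairwise fun e e' => e.2 < 10 → e ≠ e')
    (h : (f2 l).testBit w = true) : ∃ c c', c ≠ c' ∧ (c, w) ∈ l ∧ (c', w) ∈ l := by
  induction l with
  | nil => simp [f2] at h
  | cons e l ih =>
    unfold f2 at h
    rw [Nat.testBit_or, Nat.testBit_and, Bool.or_eq_true, Bool.and_eq_true, wbit_bit _ _ hw,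
      decide_eq_true_iff] at h
    rw [List.pairwise_cons] at hl
    rcases h with h | ⟨h1, h2⟩
    · obtain ⟨c, c', h3, h4, h5⟩ := ih hl.2 h
      exact ⟨c, c', h3, List.mem_cons_of_mem _ h4, List.mem_cons_of_mem _ h5⟩
    · obtain ⟨c', hc'⟩ := (f1_bit l hw).1 h1
      refine ⟨e.1, c', ?_, ?_, List.mem_cons_of_mem _ hc'⟩
      · intro h3
        apply hl.1 _ hc' (by omega)
        rw [Prod.ext_iff]; exact ⟨h3, h2⟩
      · rw [← h2]; exact List.mem_cons_self

theorem rbit_bit {c o w j : ℕ} (hw : w < 10) (hj : j < 16) (hc : c < 16) :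
    (rbit c o).testBit (16 * w + j) = decide (c = j ∧ o = w) := by
  unfold rbit
  rcases h : Nat.blt o 10
  · simp only [cond_false, Nat.zero_testBit]
    symm; rw [decide_eq_false_iff_not]; rintro ⟨_, rfl⟩
    rw [← Bool.not_eq_true] at h
    exact h (by simpa [Nat.blt_eq] using hw)
  · simp only [cond_true]
    rw [Nat.testBit_two_pow]
    congr 1
    rw [eq_iff_iff]
    constructor
    · intro h; omega
    · rintro ⟨rfl, rfl⟩; rfl

theorem fR_bit (l : List (ℕ × ℕ)) (hl : ∀ e ∈ l, e.1 < 10) {w j : ℕ} (hw : w < 10)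
    (hj : j < 16) : (fR l).testBit (16 * w + j) = true ↔ (j, w) ∈ l := by
  induction l with
  | nil => simp [fR]
  | cons e l ih =>
    unfold fR
    rw [Nat.testBit_or, Bool.or_eq_true, ih (fun e he => hl e (List.mem_cons_of_mem _ he)),
      rbit_bit hw hj (by have := hl e List.mem_cons_self; omega), decide_eq_true_iff,
      List.mem_cons]
    constructor
    · rintro (h | ⟨h1, h2⟩)
      · right; exact h
      · left; rw [← h1, ← h2]
    · rintro (h | h)
      · right; rw [← h]; exact ⟨rfl, rfl⟩
      · left; exact h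

theorem fB_bit (l : List (ℕ × ℕ)) {i : ℕ} (h : (fB l).testBit i = true) :
    ∃ e ∈ l, (kmask e.1 e.2).testBit i = true := by
  induction l with
  | nil => simp [fB] at h
  | cons e l ih =>
    unfold fB at h
    rw [Nat.testBit_or, Bool.or_eq_true] at h
    rcases h with h | h
    · obtain ⟨e', he', h⟩ := ih h
      exact ⟨e', List.mem_cons_of_mem _ he', h⟩
    · exact ⟨e, List.mem_cons_self, h⟩

/-- parity of the number of elements above `a` -/
def parB (a : ℕ) : List (ℕ × ℕ) → Bool
  | [] => false
  | e :: l => xor (parB a l) ((tmask e.1 e.2).testBit a)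

theorem fP_bit (a : ℕ) (l : List (ℕ × ℕ)) : (fP l).testBit a = parB a l := by
  induction l with
  | nil => simp [fP, parB]
  | cons e l ih => unfold fP parB; rw [Nat.testBit_xor, ih]

/-- a configuration at a cluster: `ca a`, `cb a` are the codes of the neighbours of `a` -/
structure LC (ca cb : ℕ → ℕ) : Prop where
  ra : ∀ a < 10, ca a < 12
  rb : ∀ a < 10, cb a < 12
  na : ∀ a < 10, ca a ≠ a
  nb : ∀ a < 10, cb a ≠ a
  nab : ∀ a < 10, ca a = cb a → 10 ≤ ca a
  sym : ∀ a < 10, ∀ b < 10, (ca a = b ∨ cb a = b) → (ca b = a ∨ cb b = a)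
  nx : ∀ c < 10, ∀ c' < c, ∀ o o', (o = ca c ∨ o = cb c) → (o' = ca c' ∨ o' = cb c') →
    xing c o c' o' = false

/-- the neighbour `o` of `c` is not a local point to the right of `c` -/
def lft (c o : ℕ) : Bool := decide (o < c ∨ 10 ≤ o)

def el (ca cb : ℕ → ℕ) (c : ℕ) : List (ℕ × ℕ) :=
  (if lft c (cb c) then [(c, cb c)] else []) ++ (if lft c (ca c) then [(c, ca c)] else [])

/-- the elements of the last `d` vertices -/
def pl (ca cb : ℕ → ℕ) : ℕ → List (ℕ × ℕ)
  | 0 => []
  | d + 1 => el ca cb (9 - d) ++ pl ca cb d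

variable {ca cb : ℕ → ℕ}

theorem mem_el {c : ℕ} {e : ℕ × ℕ} :
    e ∈ el ca cb c ↔ e.1 = c ∧ (e.2 = ca c ∨ e.2 = cb c) ∧ lft c e.2 = true := by
  unfold el
  rw [List.mem_append]
  constructor
  · rintro (h | h)
    · split_ifs at h with h1
      · rw [List.mem_singleton] at h; subst h; exact ⟨rfl, Or.inr rfl, h1⟩
      · simp at h
    · split_ifs at h with h1
      · rw [List.mem_singleton] at h; subst h; exact ⟨rfl, Or.inl rfl, h1⟩
      · simp at h
  · rintro ⟨h1, h2, h3⟩
    obtain ⟨x, y⟩ := e
    simp only at h1 h2 h3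
    subst h1
    rcases h2 with h2 | h2
    · right; subst h2; simp [h3]
    · left; subst h2; simp [h3]

theorem mem_pl {d : ℕ} (hd : d ≤ 10) {e : ℕ × ℕ} :
    e ∈ pl ca cb d ↔ 10 - d ≤ e.1 ∧ e.1 < 10 ∧ (e.2 = ca e.1 ∨ e.2 = cb e.1) ∧
      lft e.1 e.2 = true := by
  induction d with
  | zero => unfold pl; simp; omega
  | succ d ih =>
    unfold pl
    rw [List.mem_append, mem_el, ih (by omega)]
    constructor
    · rintro (⟨h1, h2, h3⟩ | ⟨h1, h2, h3, h4⟩)
      · exact ⟨by omega, by omega, by rw [h1]; exact h2, by rw [h1]; exact h3⟩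
      · exact ⟨by omega, h2, h3, h4⟩
    · rintro ⟨h1, h2, h3, h4⟩
      by_cases h : e.1 = 9 - d
      · left; exact ⟨h, by rw [← h]; exact h3, by rw [← h]; exact h4⟩
      · right; exact ⟨by omega, h2, h3, h4⟩

theorem pl_pairwise (h : LC ca cb) {d : ℕ} (hd : d ≤ 10) :
    (pl ca cb d).Pairwise fun e e' => e.2 < 10 → e ≠ e' := by
  induction d with
  | zero => unfold pl; exact List.Pairwise.nil
  | succ d ih =>
    unfold pl
    rw [List.pairwise_append]
    refine ⟨?_, ih (by omega), ?_⟩
    · unfold el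
      rw [List.pairwise_append]
      refine ⟨by split_ifs <;> simp, by split_ifs <;> simp, ?_⟩
      intro e he e' he' h10 hee
      split_ifs at he with h1 <;> split_ifs at he' with h2 <;> simp at he he'
      subst he; subst he'
      rw [Prod.ext_iff] at hee
      have := h.nab (9 - d) (by omega) hee.2.symm
      have h3 := hee.2
      simp only at h10 h3
      omega
    · intro e he e' he' _ hee
      subst hee
      rw [mem_el] at he
      rw [mem_pl (by omega)] at he'
      omega

/-- the weight at a local point -/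
def wl (ca cb : ℕ → ℕ) (a : ℕ) : ℕ :=
  wgt sv (parB a (pl ca cb (9 - a))) (vp (ca a)) (a + 1) (vp (cb a))

theorem wgt_swap (s : ℕ → ℕ → ℕ → Bool) (par : Bool) (a b c : ℕ) (hac : a = c → ext a b c) :
    wgt s par c b a = wgt s par a b c := by
  unfold wgt
  have h1 : ext c b a ↔ ext a b c := by unfold ext; omega
  by_cases h : ext a b c
  · rw [if_pos h, if_pos (h1.2 h)]
  · rw [if_neg h, if_neg (fun x => h (h1.1 x))]
    have : a ≠ c := fun x => h (hac x)
    have h2 : cap s c b a = cap s a b c := by
      unfold cap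
      rcases Nat.lt_or_gt_of_ne this with x | x
      · rw [if_neg (by omega), if_pos x]
      · rw [if_pos x, if_neg (by omega)]
    rw [h2]

end Pool.Agent.H41.Refl
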