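import Pool.Agent.H41.Refl.D

/-! Soundness of the search: the main induction. -/

set_option autoImplicit false

namespace Pool.Agent.H41.Refl

open Finset

variable {ca cb : ℕ → ℕ}

theorem pair_sublist {l : List ℕ} {x y : ℕ} (hx : x ∈ l) (hy : y ∈ l) (h : x ≠ y) :
    List.Sublist [x, y] l ∨ List.Sublist [y, x] l := by
  induction l with
  | nil => simp at hx
  | cons z l ih =>
    rcases List.mem_cons.1 hx with hx' | hx' <;> rcases List.mem_cons.1 hy with hy' | hy'
    · exact absurd (hx'.trans hy'.symm) h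
    · left; subst hx'; exact List.Sublist.cons_cons _ (List.singleton_sublist.2 hy')
    · right; subst hy'; exact List.Sublist.cons_cons _ (List.singleton_sublist.2 hx')
    · rcases ih hx' hy' with h | h
      · left; exact h.cons _
      · right; exact h.cons _

theorem lft_iff {c o : ℕ} : lft c o = true ↔ (o < c ∨ 10 ≤ o) := by unfold lft; simp

theorem mem_right (h : LC ca cb) {k d c : ℕ} (hd : d + (k + 1) = 10) :
    (c, k) ∈ pl ca cb d ↔ k < c ∧ c < 10 ∧ (ca k = c ∨ cb k = c) := by
  rw [mem_pl (by omega), lft_iff]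
  simp only
  constructor
  · rintro ⟨h1, h2, h3, _⟩
    refine ⟨by omega, h2, ?_⟩
    exact h.sym c h2 k (by omega) (by rcases h3 with h3 | h3 <;> simp [← h3])
  · rintro ⟨h1, h2, h3⟩
    refine ⟨by omega, h2, ?_, by omega⟩
    rcases h.sym k (by omega) c h2 h3 with h4 | h4
    · left; exact h4.symm
    · right; exact h4.symm

theorem kfree (h : LC ca cb) {k d o : ℕ} (hd : d + (k + 1) = 10) (ho : o = ca k ∨ o = cb k) :
    (fB (pl ca cb d)).testBit (12 * k + o) = false := by
  rw [← Bool.not_eq_true]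
  intro hb
  obtain ⟨e, he, hb⟩ := fB_bit _ hb
  rw [mem_pl (by omega)] at he
  unfold kmask at hb
  rw [testBit_bits, Bool.and_eq_true, decide_eq_true_iff] at hb
  have ho12 : o < 12 := by
    rcases ho with rfl | rfl
    · exact h.ra k (by omega)
    · exact h.rb k (by omega)
  have e1 : (12 * k + o) / 12 = k := by omega
  have e2 : (12 * k + o) % 12 = o := by omega
  rw [e1, e2] at hb
  have := h.nx e.1 he.2.1 k (by omega) e.2 o he.2.2.1 ho
  rw [this] at hb
  simp at hb

theorem ffree (h : LC ca cb) {k d o : ℕ} (hd : d + (k + 1) = 10) (ho : o = ca k ∨ o = cb k)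
    (_hok : lft k o = true) (ho10 : o < 10) : (f2 (pl ca cb d)).testBit o = false := by
  rw [← Bool.not_eq_true]
  intro hb
  obtain ⟨c, c', hne, h1, h2⟩ := of_f2_bit _ ho10 (pl_pairwise h (by omega)) hb
  rw [mem_pl (by omega)] at h1 h2
  simp only at h1 h2
  have h3 := h.sym c h1.2.1 o ho10 (by rcases h1.2.2.1 with x | x <;> simp [← x])
  have h4 := h.sym c' h2.2.1 o ho10 (by rcases h2.2.2.1 with x | x <;> simp [← x])
  have h5 := h.sym k (by omega) o ho10 (by rcases ho with x | x <;> simp [← x])
  have h6 := h1.1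
  have h7 := h2.1
  omega

theorem step_none (h : LC ca cb) {k d c : ℕ} (hd : d + (k + 1) = 10)
    (ha : lft k (ca k) = false) (hb : lft k (cb k) = false)
    (hgo : go (tab (k + 1)) (fR (pl ca cb d)) (f1 (pl ca cb d)) (f2 (pl ca cb d))
      (fB (pl ca cb d)) (fP (pl ca cb d)) c = true) :
    8 ≤ c + wl ca cb k ∨ go (tab k) (fR (pl ca cb (d + 1))) (f1 (pl ca cb (d + 1)))
      (f2 (pl ca cb (d + 1))) (fB (pl ca cb (d + 1))) (fP (pl ca cb (d + 1)))
      (c + wl ca cb k) = true := by
  rw [← Bool.not_eq_true, lft_iff] at ha hb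
  have hna := h.na k (by omega)
  have hnb := h.nb k (by omega)
  have hab : ca k ≠ cb k := fun x => by have := h.nab k (by omega) x; omega
  have e0 : pl ca cb (d + 1) = pl ca cb d := by
    have h1 : el ca cb (9 - d) = [] := by
      rw [List.eq_nil_iff_forall_not_mem]
      intro e he
      rw [mem_el, lft_iff, show 9 - d = k by omega] at he
      omega
    show el ca cb (9 - d) ++ pl ca cb d = _
    rw [h1]; rfl
  have hf : (f2 (pl ca cb d)).testBit k = true :=
    f2_bit_of _ (by omega) ((mem_right h hd).2 ⟨by omega, by omega, Or.inl rfl⟩)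
      ((mem_right h hd).2 ⟨by omega, by omega, Or.inr rfl⟩) hab
  have h1 := go_none hgo hf
  rw [fP_bit] at h1
  have hw : wl ca cb k = if parB k (pl ca cb d) then 1 else 2 := by
    unfold wl wgt
    rw [show 9 - k = d by omega]
    have hv1 : vp (ca k) = ca k + 1 := by unfold vp; rw [if_neg (by omega), if_neg (by omega)]
    have hv2 : vp (cb k) = cb k + 1 := by unfold vp; rw [if_neg (by omega), if_neg (by omega)]
    rw [if_pos (by rw [hv1, hv2]; unfold ext; omega)]
  rw [e0, hw]
  exact h1

theorem step_one (h : LC ca cb) {k d c o r : ℕ} (hd : d + (k + 1) = 10)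
    (hor : (ca k = o ∧ cb k = r) ∨ (ca k = r ∧ cb k = o))
    (ha : lft k o = true) (hb : lft k r = false)
    (hgo : go (tab (k + 1)) (fR (pl ca cb d)) (f1 (pl ca cb d)) (f2 (pl ca cb d))
      (fB (pl ca cb d)) (fP (pl ca cb d)) c = true) :
    8 ≤ c + wl ca cb k ∨ go (tab k) (fR (pl ca cb (d + 1))) (f1 (pl ca cb (d + 1)))
      (f2 (pl ca cb (d + 1))) (fB (pl ca cb (d + 1))) (fP (pl ca cb (d + 1)))
      (c + wl ca cb k) = true := by
  have ha' := lft_iff.1 ha
  have hb' := hb
  rw [← Bool.not_eq_true, lft_iff] at hb'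
  have hna := h.na k (by omega)
  have hnb := h.nb k (by omega)
  have hra := h.ra k (by omega)
  have hrb := h.rb k (by omega)
  have e0 : pl ca cb (d + 1) = (k, o) :: pl ca cb d := by
    show el ca cb (9 - d) ++ pl ca cb d = _
    rw [show 9 - d = k by omega]
    unfold el
    rcases hor with ⟨h1, h2⟩ | ⟨h1, h2⟩ <;> rw [h1, h2, ha, hb] <;> simp
  have hf2 : (f2 (pl ca cb d)).testBit k = false := by
    rw [← Bool.not_eq_true]
    intro hx
    obtain ⟨x, x', hne, h1, h2⟩ := of_f2_bit _ (by omega) (pl_pairwise h (by omega)) hx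
    rw [mem_right h hd] at h1 h2
    omega
  have hf1 : (f1 (pl ca cb d)).testBit k = true :=
    (f1_bit _ (by omega)).2 ⟨r, (mem_right h hd).2 ⟨by omega, by omega, by omega⟩⟩
  have hoc : o = ca k ∨ o = cb k := by omega
  have hR : ∀ j < 16, (fR (pl ca cb d)).testBit (16 * k + j) = decide (j = r) := by
    intro j hj
    rw [Bool.eq_iff_iff, decide_eq_true_iff, fR_bit _ _ (by omega) hj, mem_right h hd]
    · omega
    · intro e he
      rw [mem_pl (by omega)] at he
      exact he.2.1
  obtain ⟨w, hw, h1⟩ := go_one hgo hf2 hf1 (by omega) (kfree h hd hoc) (ffree h hd hoc ha)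
    (r := r) (by omega) (by omega) hR
  rw [fP_bit] at hw
  have hv2 : vp r = r + 1 := by unfold vp; rw [if_neg (by omega), if_neg (by omega)]
  have hw' : wl ca cb k = w := by
    rw [hw]
    unfold wl
    rw [show 9 - k = d by omega]
    rcases hor with ⟨h1, h2⟩ | ⟨h1, h2⟩
    · rw [h1, h2, hv2]
    · rw [h1, h2, hv2]
      apply wgt_swap
      intro hx
      unfold vp at hx
      split_ifs at hx <;> omega
  rw [e0, hw']
  exact h1

theorem f2_two (l : List (ℕ × ℕ)) (c o o' : ℕ) (hoo : o ≠ o' ∨ 10 ≤ o) :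
    f2 ((c, o') :: (c, o) :: l) = f2 l ||| (f1 l &&& (wbit o ||| wbit o')) := by
  simp only [f2, f1]
  have hz : ∀ i, ¬ ((wbit o).testBit i = true ∧ (wbit o').testBit i = true) := by
    rintro i ⟨h1, h2⟩
    have hle : ∀ x, (wbit x).testBit i = true → i = x ∧ x < 10 := by
      intro x hx
      by_cases h10 : x < 10
      · rw [wbit_loc h10, Nat.testBit_two_pow, decide_eq_true_iff] at hx
        exact ⟨hx.symm, h10⟩
      · rw [wbit_leg (by omega), Nat.zero_testBit] at hx
        exact absurd hx (by simp)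
    have h3 := hle _ h1
    have h4 := hle _ h2
    omega
  apply Nat.eq_of_testBit_eq
  intro i
  have hzi := hz i
  simp only [Nat.testBit_or, Nat.testBit_and]
  revert hzi
  cases (f2 l).testBit i <;> cases (f1 l).testBit i <;> cases (wbit o).testBit i <;>
    cases (wbit o').testBit i <;> simp

theorem step_two (h : LC ca cb) {k d c : ℕ} (hd : d + (k + 1) = 10)
    (ha : lft k (ca k) = true) (hb : lft k (cb k) = true)
    (hgo : go (tab (k + 1)) (fR (pl ca cb d)) (f1 (pl ca cb d)) (f2 (pl ca cb d))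
      (fB (pl ca cb d)) (fP (pl ca cb d)) c = true) :
    8 ≤ c + wl ca cb k ∨ go (tab k) (fR (pl ca cb (d + 1))) (f1 (pl ca cb (d + 1)))
      (f2 (pl ca cb (d + 1))) (fB (pl ca cb (d + 1))) (fP (pl ca cb (d + 1)))
      (c + wl ca cb k) = true := by
  have ha' := lft_iff.1 ha
  have hb' := lft_iff.1 hb
  have hna := h.na k (by omega)
  have hnb := h.nb k (by omega)
  have hra := h.ra k (by omega)
  have hrb := h.rb k (by omega)
  have e0 : pl ca cb (d + 1) = (k, cb k) :: (k, ca k) :: pl ca cb d := by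
    show el ca cb (9 - d) ++ pl ca cb d = _
    rw [show 9 - d = k by omega]
    unfold el
    rw [ha, hb]; simp
  have hf1 : (f1 (pl ca cb d)).testBit k = false := by
    rw [← Bool.not_eq_true]
    intro hx
    obtain ⟨x, h1⟩ := (f1_bit _ (by omega)).1 hx
    rw [mem_right h hd] at h1
    omega
  have hf2 : (f2 (pl ca cb d)).testBit k = false := by
    rw [← Bool.not_eq_true]
    intro hx
    obtain ⟨x, x', hne, h1, h2⟩ := of_f2_bit _ (by omega) (pl_pairwise h (by omega)) hx
    rw [mem_right h hd] at h1 h2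
    omega
  have hma : ca k ∈ (10 :: 11 :: List.range k) := by
    simp only [List.mem_cons, List.mem_range]; omega
  have hmb : cb k ∈ (10 :: 11 :: List.range k) := by
    simp only [List.mem_cons, List.mem_range]; omega
  have hpar : ∀ x, wl ca cb k = wgt sv ((fP (pl ca cb d)).testBit k) (vp (ca k)) (k + 1)
      (vp (cb k)) ∨ x := by
    intro x; left
    unfold wl
    rw [show 9 - k = d by omega, fP_bit]
  have hw0 := (hpar False).resolve_right id
  have hoo : ca k ≠ cb k ∨ 10 ≤ ca k := by
    by_cases hx : ca k = cb k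
    · right; exact h.nab k (by omega) hx
    · left; exact hx
  have hfe := f2_two (pl ca cb d) k (ca k) (cb k) hoo
  by_cases hx : ca k = cb k
  · have h10 := h.nab k (by omega) hx
    obtain ⟨w, hw, h1⟩ := go_two hgo hf2 hf1 (o := ca k) (o' := cb k) (by omega) (by omega)
      (by omega) (Or.inl ⟨hx, h10⟩) (kfree h hd (Or.inl rfl)) (ffree h hd (Or.inl rfl) ha)
      (kfree h hd (Or.inr rfl)) (ffree h hd (Or.inr rfl) hb)
    rw [← hw0] at hw
    subst hw
    rw [e0, hfe]
    exact h1
  · rcases pair_sublist hma hmb hx with hs | hs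
    · obtain ⟨w, hw, h1⟩ := go_two hgo hf2 hf1 (o := ca k) (o' := cb k) (by omega) (by omega)
        (by omega) (Or.inr hs) (kfree h hd (Or.inl rfl)) (ffree h hd (Or.inl rfl) ha)
        (kfree h hd (Or.inr rfl)) (ffree h hd (Or.inr rfl) hb)
      rw [← hw0] at hw
      subst hw
      rw [e0, hfe]
      exact h1
    · obtain ⟨w, hw, h1⟩ := go_two hgo hf2 hf1 (o := cb k) (o' := ca k) (by omega) (by omega)
        (by omega) (Or.inr hs) (kfree h hd (Or.inr rfl)) (ffree h hd (Or.inr rfl) hb)
        (kfree h hd (Or.inl rfl)) (ffree h hd (Or.inl rfl) ha)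
      have hw' : wl ca cb k = w := by
        rw [hw0, hw]
        apply wgt_swap
        intro hv
        have hca : ca k < 10 → vp (ca k) = ca k + 1 := fun _ => by
          unfold vp; rw [if_neg (by omega), if_neg (by omega)]
        have hcb : cb k < 10 → vp (cb k) = cb k + 1 := fun _ => by
          unfold vp; rw [if_neg (by omega), if_neg (by omega)]
        exfalso
        unfold vp at hv
        split_ifs at hv <;> omega
      rw [e0, hfe, hw']
      simp only [fR, f1, fB, fP]
      rw [Nat.or_right_comm (fR _), Nat.or_right_comm (f1 _), Nat.or_right_comm (fB _),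
        Nat.or_comm (wbit (ca k)), Nat.xor_right_comm (fP _)]
      exact h1

theorem sound_aux (h : LC ca cb) : ∀ k d, d + k = 10 → ∀ c,
    go (tab k) (fR (pl ca cb d)) (f1 (pl ca cb d)) (f2 (pl ca cb d)) (fB (pl ca cb d))
      (fP (pl ca cb d)) c = true → 8 ≤ c + ∑ a ∈ range k, wl ca cb a := by
  intro k
  induction k with
  | zero =>
    intro d _ c hgo
    simp only [tab, go] at hgo
    rw [Nat.ble_eq] at hgo
    simpa using hgo
  | succ k ih =>
    intro d hd c hgo
    have hstep : 8 ≤ c + wl ca cb k ∨ go (tab k) (fR (pl ca cb (d + 1))) (f1 (pl ca cb (d + 1)))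
        (f2 (pl ca cb (d + 1))) (fB (pl ca cb (d + 1))) (fP (pl ca cb (d + 1)))
        (c + wl ca cb k) = true := by
      rcases ha : lft k (ca k) <;> rcases hb : lft k (cb k)
      · exact step_none h hd ha hb hgo
      · exact step_one h hd (Or.inr ⟨rfl, rfl⟩) hb ha hgo
      · exact step_one h hd (Or.inl ⟨rfl, rfl⟩) ha hb hgo
      · exact step_two h hd ha hb hgo
    rw [Finset.sum_range_succ]
    rcases hstep with h1 | h1
    · omega
    · have := ih (d + 1) (by omega) _ h1
      omega

theorem sound (h : LC ca cb) (hgo : go (tab 10) 0 0 0 0 0 0 = true) :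
    8 ≤ ∑ a ∈ range 10, wl ca cb a := by
  have := sound_aux h 10 0 rfl 0 hgo
  simpa using this

end Pool.Agent.H41.Refl
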