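import Pool.Agent.H41.Refl.D

/-! The weight identity for a closed polygon. -/

set_option autoImplicit false

namespace Pool.Agent.H41.Refl

open Finset

variable {s : ℕ → ℕ → ℕ → Bool} {n : ℕ} {p : ℕ → ℕ}

/-- the level, constant along the polygon -/
def Lv (s : ℕ → ℕ → ℕ → Bool) (n : ℕ) (p : ℕ → ℕ) (k : ℕ) : ℤ :=
  W s n p (k + 1) + td s p k + lw (p (k + 1)) (p (k + 2))

theorem Poly.n01 (P : Poly n s p) (k : ℕ) : p k ≠ p (k + 1) :=
  P.ne _ _ (by omega) (by have := P.hn; omega)

theorem Poly.n02 (P : Poly n s p) (k : ℕ) : p k ≠ p (k + 2) :=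
  P.ne _ _ (by omega) (by have := P.hn; omega)

theorem Poly.Lv_succ (P : Poly n s p) (k : ℕ) : Lv s n p (k + 1) = Lv s n p k := by
  have h1 := P.level k
  have h2 := local_const (s := s) (P.n01 (k + 1)) (P.n01 (k + 2)) (P.n02 (k + 1))
  unfold Lv
  unfold td tu at *
  simp only [show k + 1 + 1 = k + 2 by ring, show k + 1 + 2 = k + 3 by ring,
    show k + 2 + 1 = k + 3 by ring] at *
  linarith

theorem Poly.Lv_const (P : Poly n s p) (k : ℕ) : Lv s n p k = Lv s n p 0 := by
  induction k with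
  | zero => rfl
  | succ k ih => rw [P.Lv_succ, ih]

theorem Poly.Lv_val (P : Poly n s p) (h0 : ∀ k, p 0 ≤ p k) (k : ℕ) :
    Lv s n p k = if left s (p (n - 1)) (p 0) (p 1) = true then 1 else 0 := by
  have hn := P.hn
  rw [P.Lv_const k, ← P.Lv_const (n - 1)]
  obtain ⟨m, rfl⟩ : ∃ m, n = m + 3 := ⟨n - 3, by omega⟩
  have hper : p (m + 3) = p 0 := by simpa using P.per 0
  have hper1 : p (m + 4) = p 1 := by
    have := P.per 1; rw [← this]; congr 1; ring
  have hW : W s (m + 3) p (m + 3) = 0 := by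
    have := P.W_per 0
    rw [Nat.zero_add] at this
    rw [this]
    unfold W
    exact Finset.sum_eq_zero fun j _ => cc_zero_of_le (h0 _) (h0 _)
  unfold Lv td
  simp only [show m + 3 - 1 = m + 2 by omega, show m + 2 + 1 = m + 3 by ring,
    show m + 2 + 2 = m + 4 by ring, hper, hper1, hW]
  have n01 : p 0 ≠ p 1 := P.ne 0 1 (by omega) (by omega)
  have n0m : p 0 ≠ p (m + 2) := P.ne 0 (m + 2) (by omega) (by omega)
  have n1m : p 1 ≠ p (m + 2) := P.ne 1 (m + 2) (by omega) (by omega)
  have l01 : p 0 < p 1 := lt_of_le_of_ne (h0 1) n01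
  have l0m : p 0 < p (m + 2) := lt_of_le_of_ne (h0 (m + 2)) n0m
  generalize p 0 = a at *
  generalize p 1 = b at *
  generalize p (m + 2) = c at *
  clear hW hper hper1 P h0
  unfold ee cc left lw
  rcases Nat.lt_or_gt_of_ne n1m with h | h
  · rcases hh : s a b c <;> grind
  · rcases hh : s a c b <;> grind

theorem Poly.W_val (P : Poly n s p) (h0 : ∀ k, p 0 ≤ p k) (k : ℕ) :
    W s n p (k + 1) = (if left s (p (n - 1)) (p 0) (p 1) = true then 1 else 0) -
      (cc s (p (k + 2)) (p k) (p (k + 1)) + ee s (p k) (p (k + 1)) (p (k + 2))) -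
        lw (p (k + 1)) (p (k + 2)) := by
  have := P.Lv_val h0 k
  unfold Lv td at this
  linarith

/-- weights and reflex vertices -/
theorem Poly.wgt_sum (P : Poly n s p) (h0 : ∀ k, p 0 ≤ p k) :
    ∑ k ∈ range n, wgt s (decide (W s n p (k + 1) % 2 = 1)) (p k) (p (k + 1)) (p (k + 2)) =
      3 * ((range n).filter fun k =>
        left s (p k) (p (k + 1)) (p (k + 2)) ≠ left s (p (n - 1)) (p 0) (p 1)).card + 4 := by
  set L := left s (p (n - 1)) (p 0) (p 1) with hL
  have key : ∀ k, ((wgt s (decide (W s n p (k + 1) % 2 = 1)) (p k) (p (k + 1)) (p (k + 2)) : ℕ) : ℤ)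
      = 3 * (if left s (p k) (p (k + 1)) (p (k + 2)) ≠ L then 1 else 0) +
        2 * ((if L = true then 1 else -1) * (tu s p k + td s p k)) := by
    intro k
    have h1 := P.W_val h0 k
    rw [← hL] at h1
    have h2 := local_w (s := s) (P.n01 k) (P.n01 (k + 1)) (P.n02 k) L _ h1
    have h3 := local_h (s := s) (P.n01 k) (P.n01 (k + 1)) (P.n02 k) L
    unfold tu td
    rw [← h3]
    unfold wgt
    by_cases hx : ext (p k) (p (k + 1)) (p (k + 2))
    · simp only [if_pos hx] at h2 ⊢
      by_cases hr : left s (p k) (p (k + 1)) (p (k + 2)) ≠ L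
      · simp [hr, h2.1 hr]
      · have : ¬ (W s n p (k + 1) % 2 = 1) := fun y => hr (h2.2 y)
        simp [hr, this]
    · simp only [if_neg hx] at h2 ⊢
      by_cases hr : left s (p k) (p (k + 1)) (p (k + 2)) ≠ L
      · have h4 := h2.1 hr
        have h5 : decide (W s n p (k + 1) % 2 = 1) = cap s (p k) (p (k + 1)) (p (k + 2)) := by
          rw [Bool.eq_iff_iff, decide_eq_true_iff]; exact h4
        rw [if_pos h5, if_pos hr]; norm_num
      · have h5 : ¬ decide (W s n p (k + 1) % 2 = 1) = cap s (p k) (p (k + 1)) (p (k + 2)) := by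
          intro h4
          rw [Bool.eq_iff_iff, decide_eq_true_iff] at h4
          exact hr (h2.2 h4)
        rw [if_neg h5, if_neg hr]; norm_num
  have hsum : ((∑ k ∈ range n, wgt s (decide (W s n p (k + 1) % 2 = 1)) (p k) (p (k + 1))
      (p (k + 2)) : ℕ) : ℤ) = ((3 * ((range n).filter fun k =>
        left s (p k) (p (k + 1)) (p (k + 2)) ≠ L).card + 4 : ℕ) : ℤ) := by
    push_cast
    rw [Finset.sum_congr rfl fun k _ => key k, Finset.sum_add_distrib, ← Finset.mul_sum,
      ← Finset.mul_sum, ← Finset.mul_sum, Finset.sum_add_distrib, P.sum_td, P.turning_up h0, ← hL,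
      Finset.sum_boole]
    rcases L <;> simp
  exact_mod_cast hsum

end Pool.Agent.H41.Refl
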