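import Pool.Agent.H41.Refl.F
import Pool.Agent.H41.Refl.E

/-! Vertices instead of positions, and the clusters. -/

set_option autoImplicit false

namespace Pool.Agent.H41.Refl

open Finset

variable {s : ℕ → ℕ → ℕ → Bool} {n : ℕ} {p : ℕ → ℕ}

theorem NC0.swap {a b c d : ℕ} (h : NC0 s a b c d) : NC0 s c d a b := by
  obtain ⟨h1, h2, h3, h4⟩ := h
  exact ⟨h2, h1, h4, h3⟩

theorem NC.swap {a b c d : ℕ} (h : NC s a b c d) : NC s c d a b := by
  obtain ⟨h1, h2, h3, h4⟩ := h
  exact ⟨h1.swap, h3.swap, h2.swap, h4.swap⟩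

theorem NC.flip1 {a b c d : ℕ} (h : NC s a b c d) : NC s b a c d := by
  obtain ⟨h1, h2, h3, h4⟩ := h
  exact ⟨h2, h1, h4, h3⟩

theorem NC.flip2 {a b c d : ℕ} (h : NC s a b c d) : NC s a b d c := by
  obtain ⟨h1, h2, h3, h4⟩ := h
  exact ⟨h3, h4, h1, h2⟩

theorem Poly.mod (P : Poly n s p) (k : ℕ) : p (k % n) = p k :=
  (Function.Periodic.map_mod_nat (f := p) (fun x => P.per x) k)

theorem Poly.eq_iff (P : Poly n s p) (i j : ℕ) : p i = p j ↔ i % n = j % n := by
  have hn := P.hn
  constructor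
  · intro h
    by_contra hne
    rw [← P.mod i, ← P.mod j] at h
    have h1 := Nat.mod_lt i (show n > 0 by omega)
    have h2 := Nat.mod_lt j (show n > 0 by omega)
    rcases Nat.lt_or_gt_of_ne hne with h3 | h3
    · exact P.ne _ _ h3 (by omega) h
    · exact P.ne _ _ h3 (by omega) h.symm
  · intro h
    rw [← P.mod i, ← P.mod j, h]

theorem Poly.add_eq (P : Poly n s p) {i j : ℕ} (h : p i = p j) (k : ℕ) : p (i + k) = p (j + k) := by
  rw [P.eq_iff] at h ⊢
  exact Nat.ModEq.add_right k h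

theorem Poly.eq_of_succ (P : Poly n s p) {i j : ℕ} (h : p (i + 1) = p (j + 1)) : p i = p j := by
  rw [P.eq_iff] at h ⊢
  exact Nat.ModEq.add_right_cancel' 1 h

theorem Poly.nc' (P : Poly n s p) (i j : ℕ) (h1 : p i ≠ p j) (h2 : p i ≠ p (j + 1))
    (h3 : p (i + 1) ≠ p j) : NC s (p i) (p (i + 1)) (p j) (p (j + 1)) := by
  have hn := P.hn
  have e1 := P.mod i
  have e2 := P.mod j
  have e3 : p (i % n + 1) = p (i + 1) := P.add_eq e1 1
  have e4 : p (j % n + 1) = p (j + 1) := P.add_eq e2 1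
  have l1 := Nat.mod_lt i (show n > 0 by omega)
  have l2 := Nat.mod_lt j (show n > 0 by omega)
  rw [← e1, ← e2, ← e3, ← e4]
  rw [← e1, ← e2] at h1
  rw [← e1, ← e4] at h2
  rw [← e3, ← e2] at h3
  generalize i % n = a at *
  generalize j % n = b at *
  have hab : a ≠ b := fun h => h1 (by rw [h])
  rcases Nat.lt_or_gt_of_ne hab with h | h
  · apply P.nc
    · have : b ≠ a + 1 := fun x => h3 (by rw [x])
      omega
    · have : b + 1 ≠ a + n := fun x => h2 (by rw [x, P.per])
      omega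
  · apply NC.swap
    apply P.nc
    · have : a ≠ b + 1 := fun x => h2 (by rw [x])
      omega
    · have : a + 1 ≠ b + n := fun x => h3 (by rw [x, P.per])
      omega

/-- number of edges above the vertex `u` -/
def Kv (s : ℕ → ℕ → ℕ → Bool) (n : ℕ) (p : ℕ → ℕ) (u : ℕ) : ℕ :=
  ∑ j ∈ range n, if ab s u (p j) (p (j + 1)) = true then 1 else 0

theorem cc_parity (z a b : ℕ) : (cc s z a b) % 2 = (if ab s z a b = true then 1 else 0 : ℤ) % 2 := by
  unfold cc ab
  simp only [decide_eq_true_iff]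
  by_cases h1 : b < z ∧ z < a ∧ s b z a = true
  · rw [if_pos h1, if_pos (Or.inl h1)]
  · rw [if_neg h1]
    by_cases h2 : a < z ∧ z < b ∧ s a z b = true
    · rw [if_pos h2, if_pos (Or.inr h2)]; rfl
    · rw [if_neg h2, if_neg (by tauto)]

theorem sum_parity {ι : Type} (S : Finset ι) (f g : ι → ℤ) (h : ∀ i ∈ S, f i % 2 = g i % 2) :
    (∑ i ∈ S, f i) % 2 = (∑ i ∈ S, g i) % 2 := by
  rw [Finset.sum_int_mod, Finset.sum_int_mod S 2 g, Finset.sum_congr rfl h]

theorem sum_period (f : ℕ → ℤ) (n : ℕ) (h : ∀ k, f (k + n) = f k) (m : ℕ) :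
    ∑ k ∈ Ico m (m + n), f k = ∑ k ∈ range n, f k := by
  induction m with
  | zero => simp
  | succ m ih =>
    rw [← ih]
    have h1 := Finset.sum_Ico_succ_top (show m ≤ m + n by omega) f
    rcases Nat.eq_zero_or_pos n with h0 | h0
    · subst h0; simp
    · rw [Finset.sum_eq_sum_Ico_succ_bot (by omega)] at h1
      rw [show m + 1 + n = m + n + 1 by ring]
      rw [h m] at h1
      linarith

theorem Poly.W_parity (P : Poly n s p) (m : ℕ) : W s n p m % 2 = 1 ↔ Kv s n p (p m) % 2 = 1 := by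
  unfold W
  rw [sum_period _ _ _ m]
  · rw [sum_parity _ _ _ fun j _ => cc_parity (p m) (p j) (p (j + 1))]
    unfold Kv
    rw [← Nat.cast_inj (R := ℤ)]
    push_cast
    rfl
  · intro k
    rw [P.per, show k + n + 1 = k + 1 + n by ring, P.per]

/-- a polygon through all the points `0, …, n-1` -/
structure Full (n : ℕ) (s : ℕ → ℕ → ℕ → Bool) (p : ℕ → ℕ) : Prop extends Poly n s p where
  lt : ∀ k, p k < n

theorem Full.surj (P : Full n s p) (u : ℕ) (hu : u < n) : ∃ k < n, p (k + 1) = u := by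
  classical
  have hn := P.hn
  have h1 : ((range n).image fun k => p (k + 1)) = range n := by
    apply Finset.eq_of_subset_of_card_le
    · intro x hx
      rw [Finset.mem_image] at hx
      obtain ⟨k, _, rfl⟩ := hx
      rw [Finset.mem_range]
      exact P.lt _
    · rw [Finset.card_image_of_injOn]
      intro x hx y hy hxy
      simp only [Finset.coe_range, Set.mem_Iio] at hx hy
      have hxy' : p x = p y := P.toPoly.eq_of_succ hxy
      rw [P.toPoly.eq_iff, Nat.mod_eq_of_lt hx, Nat.mod_eq_of_lt hy] at hxy'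
      exact hxy'
  have h2 : u ∈ ((range n).image fun k => p (k + 1)) := by rw [h1]; exact Finset.mem_range.2 hu
  rw [Finset.mem_image] at h2
  obtain ⟨k, hk, hku⟩ := h2
  exact ⟨k, Finset.mem_range.1 hk, hku⟩

open Classical in
/-- the position before `u` -/
noncomputable def pos (n : ℕ) (p : ℕ → ℕ) (u : ℕ) : ℕ :=
  if h : ∃ k < n, p (k + 1) = u then Classical.choose h else 0

/-- the vertex before `u` -/
noncomputable def vA (n : ℕ) (p : ℕ → ℕ) (u : ℕ) : ℕ := p (pos n p u)

/-- the vertex after `u` -/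
noncomputable def vC (n : ℕ) (p : ℕ → ℕ) (u : ℕ) : ℕ := p (pos n p u + 2)

theorem Full.pos_spec (P : Full n s p) {u : ℕ} (hu : u < n) :
    pos n p u < n ∧ p (pos n p u + 1) = u := by
  have h := P.surj u hu
  unfold pos
  rw [dif_pos h]
  exact Classical.choose_spec h

theorem Full.vA_eq (P : Full n s p) (k : ℕ) : vA n p (p (k + 1)) = p k :=
  P.toPoly.eq_of_succ (P.pos_spec (P.lt _)).2

theorem Full.vC_eq (P : Full n s p) (k : ℕ) : vC n p (p (k + 1)) = p (k + 2) := by
  have := P.toPoly.add_eq (P.pos_spec (P.lt (k + 1))).2 1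
  exact this

theorem Full.sum_eq (P : Full n s p) (f : ℕ → ℕ → ℕ → ℕ) :
    ∑ k ∈ range n, f (p k) (p (k + 1)) (p (k + 2)) =
      ∑ u ∈ range n, f (vA n p u) u (vC n p u) := by
  apply Finset.sum_bij (fun k _ => p (k + 1))
  · intro k _
    exact Finset.mem_range.2 (P.lt _)
  · intro x hx y hy hxy
    rw [Finset.mem_range] at hx hy
    have hxy' : p x = p y := P.toPoly.eq_of_succ hxy
    rw [P.toPoly.eq_iff, Nat.mod_eq_of_lt hx, Nat.mod_eq_of_lt hy] at hxy'
    exact hxy'
  · intro u hu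
    obtain ⟨k, hk, h⟩ := P.surj u (Finset.mem_range.1 hu)
    exact ⟨k, Finset.mem_range.2 hk, h⟩
  · intro k _
    rw [P.vA_eq, P.vC_eq]

theorem ab_swap (z a b : ℕ) : ab s z b a = ab s z a b := by
  unfold ab
  rw [decide_eq_decide]
  tauto

theorem Full.Kv_eq (P : Full n s p) (u : ℕ) :
    Kv s n p u = ∑ v ∈ range n, ((if vA n p v < v ∧ ab s u (vA n p v) v = true then 1 else 0) +
      (if vC n p v < v ∧ ab s u (vC n p v) v = true then 1 else 0)) := by
  rw [Finset.sum_add_distrib]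
  have h1 := P.sum_eq (fun x y _ => if x < y ∧ ab s u x y = true then 1 else 0)
  have h2 := P.sum_eq (fun _ y z => if z < y ∧ ab s u z y = true then 1 else 0)
  rw [← h1, ← h2]
  have h3 : ∑ k ∈ range n, (if p (k + 2) < p (k + 1) ∧ ab s u (p (k + 2)) (p (k + 1)) = true
      then 1 else 0 : ℤ) = ∑ k ∈ range n, (if p (k + 1) < p k ∧ ab s u (p (k + 1)) (p k) = true
      then 1 else 0 : ℤ) := by
    apply sum_shift (fun k => (if p (k + 1) < p k ∧ ab s u (p (k + 1)) (p k) = true
      then 1 else 0 : ℤ))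
    have e0 : p n = p 0 := by simpa using P.per 0
    have e1 : p (n + 1) = p 1 := by rw [show n + 1 = 1 + n by ring]; exact P.per 1
    rw [e0, e1]
  have h4 : ∑ k ∈ range n, (if p (k + 2) < p (k + 1) ∧ ab s u (p (k + 2)) (p (k + 1)) = true
      then 1 else 0 : ℕ) = ∑ k ∈ range n, (if p (k + 1) < p k ∧ ab s u (p (k + 1)) (p k) = true
      then 1 else 0 : ℕ) := by exact_mod_cast h3
  rw [h4, ← Finset.sum_add_distrib]
  unfold Kv
  apply Finset.sum_congr rfl
  intro k _
  rw [ab_swap u (p k) (p (k + 1))]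
  have hne : p k ≠ p (k + 1) := P.toPoly.n01 k
  rcases Nat.lt_or_gt_of_ne hne with h | h
  · have h' : ¬ p (k + 1) < p k := by omega
    simp [h, h']
  · have h' : ¬ p k < p (k + 1) := by omega
    simp [h, h']

end Pool.Agent.H41.Refl
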