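import Pool.Agent.H41.Refl.G

/-! The clusters. -/

set_option autoImplicit false

namespace Pool.Agent.H41.Refl

open Finset

/-- the order type of the point set -/
def sS (x y z : ℕ) : Bool :=
  if z / 10 ≠ y / 10 then false
  else if x / 10 = y / 10 then loc (x % 10) (y % 10) (z % 10) else bl (y % 10) (z % 10)

/-- code of the point `y` seen from the cluster starting at `B` -/
def cd (B y : ℕ) : ℕ := if y < B then 10 else if y < B + 10 then y - B else 11

/-- virtual position -/
def ph (B y : ℕ) : ℕ := if y < B then 0 else if y < B + 10 then y - B + 1 else 11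

theorem vp_cd (B y : ℕ) : vp (cd B y) = ph B y := by
  unfold vp cd ph
  split_ifs <;> omega

theorem ph_mono {B x y : ℕ} (h : ph B x < ph B y) : x < y := by
  unfold ph at h
  split_ifs at h <;> omega

theorem ph_self {B a : ℕ} (ha : a < 10) : ph B (B + a) = a + 1 := by
  unfold ph
  split_ifs <;> omega

theorem transfer {m x y z : ℕ} (h1 : ph (10 * m) x < ph (10 * m) y)
    (h2 : ph (10 * m) y < ph (10 * m) z) :
    sS x y z = sv (ph (10 * m) x) (ph (10 * m) y) (ph (10 * m) z) := by
  have hy0 : 10 * m ≤ y := by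
    by_contra hy
    have : ph (10 * m) y = 0 := by unfold ph; rw [if_pos (by omega)]
    omega
  have hy1 : y < 10 * m + 10 := by
    by_contra hy
    have h3 : ph (10 * m) y = 11 := by unfold ph; rw [if_neg (by omega), if_neg (by omega)]
    have h4 : ph (10 * m) z ≤ 11 := by unfold ph; split_ifs <;> omega
    omega
  have hpy : ph (10 * m) y = y - 10 * m + 1 := by
    unfold ph; rw [if_neg (by omega), if_pos (by omega)]
  have hyz := ph_mono h2
  by_cases hz : z < 10 * m + 10
  · have hpz : ph (10 * m) z = z - 10 * m + 1 := by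
      unfold ph; rw [if_neg (by omega), if_pos (by omega)]
    have hz1 : z / 10 = y / 10 := by omega
    unfold sS sv
    rw [if_neg (show ¬ (z / 10 ≠ y / 10) by simpa using hz1),
      if_neg (show ¬ ph (10 * m) z = 11 by omega)]
    have ey : y % 10 = ph (10 * m) y - 1 := by omega
    have ez : z % 10 = ph (10 * m) z - 1 := by omega
    by_cases hx : x < 10 * m
    · have hpx : ph (10 * m) x = 0 := by unfold ph; rw [if_pos (by omega)]
      rw [if_neg (show ¬ x / 10 = y / 10 by omega), if_pos hpx, ey, ez]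
    · have hxy := ph_mono h1
      have hpx : ph (10 * m) x = x - 10 * m + 1 := by
        unfold ph; rw [if_neg (by omega), if_pos (by omega)]
      have ex : x % 10 = ph (10 * m) x - 1 := by omega
      rw [if_pos (show x / 10 = y / 10 by omega),
        if_neg (show ¬ ph (10 * m) x = 0 by omega), ex, ey, ez]
  · have hpz : ph (10 * m) z = 11 := by
      unfold ph; rw [if_neg (by omega), if_neg (by omega)]
    unfold sS sv
    rw [if_pos (show z / 10 ≠ y / 10 by omega), if_pos hpz]

theorem NC0.transfer {m a b c d : ℕ} (h : NC0 sS a b c d) :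
    NC0 sv (ph (10 * m) a) (ph (10 * m) b) (ph (10 * m) c) (ph (10 * m) d) := by
  obtain ⟨h1, h2, h3, h4⟩ := h
  refine ⟨?_, ?_, ?_, ?_⟩
  · intro x y z
    have := h1 (ph_mono x) (ph_mono y) (ph_mono z)
    rwa [Refl.transfer x y, Refl.transfer y z] at this
  · intro x y z
    have := h2 (ph_mono x) (ph_mono y) (ph_mono z)
    rwa [Refl.transfer x y, Refl.transfer y z] at this
  · intro x y z
    have := h3 (ph_mono x) (ph_mono y) (ph_mono z)
    rwa [Refl.transfer x (y.trans z), Refl.transfer (x.trans y) z] at this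
  · intro x y z
    have := h4 (ph_mono x) (ph_mono y) (ph_mono z)
    rwa [Refl.transfer x (y.trans z), Refl.transfer (x.trans y) z] at this

theorem NC.transfer {m a b c d : ℕ} (h : NC sS a b c d) :
    NC sv (ph (10 * m) a) (ph (10 * m) b) (ph (10 * m) c) (ph (10 * m) d) := by
  obtain ⟨h1, h2, h3, h4⟩ := h
  exact ⟨h1.transfer, h2.transfer, h3.transfer, h4.transfer⟩

variable {n : ℕ} {p : ℕ → ℕ}

theorem Full.vA_ne {s : ℕ → ℕ → ℕ → Bool} (P : Full n s p) {u : ℕ} (hu : u < n) :
    vA n p u ≠ u := by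
  have h := P.toPoly.n01 (pos n p u)
  rw [(P.pos_spec hu).2] at h
  exact h

theorem Full.vC_ne {s : ℕ → ℕ → ℕ → Bool} (P : Full n s p) {u : ℕ} (hu : u < n) :
    vC n p u ≠ u := by
  have h := P.toPoly.n01 (pos n p u + 1)
  rw [(P.pos_spec hu).2] at h
  exact h.symm

theorem Full.vAC_ne {s : ℕ → ℕ → ℕ → Bool} (P : Full n s p) (u : ℕ) :
    vA n p u ≠ vC n p u := P.toPoly.n02 (pos n p u)

theorem Full.vC_vA {s : ℕ → ℕ → ℕ → Bool} (P : Full n s p) {u : ℕ} (hu : u < n) :
    vC n p (vA n p u) = u := by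
  have hn := P.hn
  have h : vA n p u = p (pos n p u + n - 1 + 1) := by
    rw [show pos n p u + n - 1 + 1 = pos n p u + n by omega, P.per]; rfl
  rw [h, P.vC_eq, show pos n p u + n - 1 + 2 = pos n p u + 1 + n by omega, P.per,
    (P.pos_spec hu).2]

theorem Full.vA_vC {s : ℕ → ℕ → ℕ → Bool} (P : Full n s p) {u : ℕ} (hu : u < n) :
    vA n p (vC n p u) = u := by
  have h : vC n p u = p (pos n p u + 1 + 1) := rfl
  rw [h, P.vA_eq, (P.pos_spec hu).2]

theorem cd_self {B y a : ℕ} (ha : a < 10) : cd B y = a ↔ y = B + a := by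
  unfold cd
  split_ifs <;> omega

theorem Full.edge_nc {s : ℕ → ℕ → ℕ → Bool} (P : Full n s p) {u v x y : ℕ} (hu : u < n)
    (hv : v < n) (hx : x = vA n p u ∨ x = vC n p u) (hy : y = vA n p v ∨ y = vC n p v)
    (h1 : u ≠ v) (h2 : u ≠ y) (h3 : x ≠ v) (h4 : x ≠ y) : NC s u x v y := by
  have eu := (P.pos_spec hu).2
  have ev := (P.pos_spec hv).2
  rcases hx with rfl | rfl <;> rcases hy with rfl | rfl
  · have := P.toPoly.nc' (pos n p u) (pos n p v) h4 (by rw [ev]; exact h3) (by rw [eu]; exact h2)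
    rw [eu, ev] at this
    exact this.flip1.flip2
  · have := P.toPoly.nc' (pos n p u) (pos n p v + 1) (by rw [ev]; exact h3) h4
      (by rw [eu, ev]; exact h1)
    rw [eu, ev] at this
    exact this.flip1
  · have := P.toPoly.nc' (pos n p u + 1) (pos n p v) (by rw [eu]; exact h2)
      (by rw [eu, ev]; exact h1) h4
    rw [eu, ev] at this
    exact this.flip2
  · have := P.toPoly.nc' (pos n p u + 1) (pos n p v + 1) (by rw [eu, ev]; exact h1)
      (by rw [eu]; exact h2) (by rw [ev]; exact h3)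
    rw [eu, ev] at this
    exact this

theorem Full.LC (P : Full n sS p) {m : ℕ} (hm : 10 * m + 10 ≤ n) :
    LC (fun a => cd (10 * m) (vA n p (10 * m + a))) (fun a => cd (10 * m) (vC n p (10 * m + a))) := by
  refine ⟨?_, ?_, ?_, ?_, ?_, ?_, ?_⟩
  · intro a _
    unfold cd; split_ifs <;> omega
  · intro a _
    unfold cd; split_ifs <;> omega
  · intro a ha
    rw [Ne, cd_self ha]
    exact P.vA_ne (by omega)
  · intro a ha
    rw [Ne, cd_self ha]
    exact P.vC_ne (by omega)
  · intro a ha h
    by_contra hc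
    have h1 := (cd_self (B := 10 * m) (y := vA n p (10 * m + a)) (by omega)).1 rfl
    have h2 := (cd_self (B := 10 * m) (y := vC n p (10 * m + a)) (by omega)).1 h.symm
    exact P.vAC_ne (10 * m + a) (h1.trans h2.symm)
  · intro a ha b hb h
    rw [cd_self hb, cd_self hb] at h
    rw [cd_self ha, cd_self ha]
    rcases h with h | h
    · right
      rw [← h]
      exact P.vC_vA (by omega)
    · left
      rw [← h]
      exact P.vA_vC (by omega)
  · intro c hc c' hc' o o' ho ho'
    obtain ⟨x, hx, hox⟩ : ∃ x, (x = vA n p (10 * m + c) ∨ x = vC n p (10 * m + c)) ∧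
        o = cd (10 * m) x := by
      rcases ho with h | h
      · exact ⟨_, Or.inl rfl, h⟩
      · exact ⟨_, Or.inr rfl, h⟩
    obtain ⟨y, hy, hoy⟩ : ∃ y, (y = vA n p (10 * m + c') ∨ y = vC n p (10 * m + c')) ∧
        o' = cd (10 * m) y := by
      rcases ho' with h | h
      · exact ⟨_, Or.inl rfl, h⟩
      · exact ⟨_, Or.inr rfl, h⟩
    subst hox hoy
    unfold xing
    rw [decide_eq_false_iff_not, vp_cd, vp_cd, ← ph_self (B := 10 * m) hc,
      ← ph_self (B := 10 * m) (show c' < 10 by omega)]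
    rintro ⟨h1, h2, h3, h4, h5⟩
    apply h5
    apply NC.transfer
    apply P.edge_nc (by omega) (by omega) hx hy
    · intro h; exact h1 (by rw [h])
    · intro h; exact h2 (by rw [h])
    · intro h; exact h3 (by rw [h])
    · intro h; exact h4 (by rw [h])

/-! ### parity -/

/-- indicator that the element `(c, o)` is left and above `a` -/
def ind (a c o : ℕ) : ℕ := if lft c o = true ∧ (tmask c o).testBit a = true then 1 else 0

theorem parB_append (a : ℕ) (l l' : List (ℕ × ℕ)) :
    parB a (l ++ l') = xor (parB a l) (parB a l') := by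
  induction l with
  | nil => simp [parB]
  | cons e l ih =>
    simp only [List.cons_append, parB, ih]
    cases parB a l <;> cases parB a l' <;> cases (tmask e.1 e.2).testBit a <;> rfl

theorem parB_el (ca cb : ℕ → ℕ) (a c : ℕ) :
    parB a (el ca cb c) = decide ((ind a c (ca c) + ind a c (cb c)) % 2 = 1) := by
  unfold el ind
  rcases lft c (ca c) <;> rcases lft c (cb c) <;> rcases h1 : (tmask c (ca c)).testBit a <;>
    rcases h2 : (tmask c (cb c)).testBit a <;> simp [parB, h1, h2]

theorem parB_pl (ca cb : ℕ → ℕ) (a d : ℕ) (hd : d ≤ 10) :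
    parB a (pl ca cb d) =
      decide ((∑ c ∈ Ico (10 - d) 10, (ind a c (ca c) + ind a c (cb c))) % 2 = 1) := by
  induction d with
  | zero => simp [pl, parB]
  | succ d ih =>
    rw [pl, parB_append, parB_el, ih (by omega), show 10 - (d + 1) = 9 - d by omega,
      Finset.sum_eq_sum_Ico_succ_bot (show 9 - d < 10 by omega),
      show 9 - d + 1 = 10 - d by omega]
    generalize ∑ c ∈ Ico (10 - d) 10, (ind a c (ca c) + ind a c (cb c)) = S
    generalize ind a (9 - d) (ca (9 - d)) + ind a (9 - d) (cb (9 - d)) = T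
    rcases Nat.mod_two_eq_zero_or_one S with h | h <;>
      rcases Nat.mod_two_eq_zero_or_one T with h' | h' <;> simp [Nat.add_mod, h, h']

theorem ind_eq {m a c y : ℕ} (hac : a < c) (hc : c < 10) (_hy : y ≠ 10 * m + c) :
    (if y < 10 * m + c ∧ ab sS (10 * m + a) y (10 * m + c) = true then 1 else 0) =
      ind a c (cd (10 * m) y) := by
  unfold ind tmask
  rw [testBit_bits, vp_cd]
  have e1 := ph_self (B := 10 * m) (show a < 10 by omega)
  have e2 := ph_self (B := 10 * m) hc
  rw [← e1, ← e2]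
  congr 1
  rw [Bool.and_eq_true, decide_eq_true_iff]
  unfold ab
  rw [decide_eq_true_iff, decide_eq_true_iff, lft_iff]
  apply propext
  constructor
  · rintro ⟨h1, h2⟩
    rcases h2 with h2 | h2
    · omega
    · have h3 : ph (10 * m) y < ph (10 * m) (10 * m + a) := by
        rw [e1]; unfold ph; split_ifs <;> omega
      have h4 : ph (10 * m) (10 * m + a) < ph (10 * m) (10 * m + c) := by omega
      refine ⟨?_, hac, Or.inr ⟨h3, h4, ?_⟩⟩
      · unfold cd; split_ifs <;> omega
      · rw [← transfer h3 h4]; exact h2.2.2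
  · rintro ⟨h1, h2, h3⟩
    rcases h3 with h3 | h3
    · omega
    · have h4 := ph_mono h3.1
      refine ⟨by omega, Or.inr ⟨h4, by omega, ?_⟩⟩
      rw [transfer h3.1 h3.2.1]; exact h3.2.2

theorem ab_other {m a v y : ℕ} (ha : a < 10) (hv : v < 10 * m + a + 1 ∨ 10 * m + 10 ≤ v)
    (hy : y < v) : ab sS (10 * m + a) y v = false := by
  unfold ab
  rw [decide_eq_false_iff_not]
  rintro (h | h)
  · omega
  · obtain ⟨h1, h2, h3⟩ := h
    unfold sS at h3
    rw [if_pos (by omega)] at h3
    exact absurd h3 (by simp)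

theorem Full.Kv_cluster (P : Full n sS p) {m a : ℕ} (hm : 10 * m + 10 ≤ n) (ha : a < 10) :
    Kv sS n p (10 * m + a) = ∑ c ∈ Ico (a + 1) 10,
      (ind a c (cd (10 * m) (vA n p (10 * m + c))) +
        ind a c (cd (10 * m) (vC n p (10 * m + c)))) := by
  rw [P.Kv_eq]
  have h1 : ∑ c ∈ Ico (a + 1) 10,
      (ind a c (cd (10 * m) (vA n p (10 * m + c))) +
        ind a c (cd (10 * m) (vC n p (10 * m + c)))) =
      ∑ v ∈ Ico (10 * m + (a + 1)) (10 * m + 10),
        ((if vA n p v < v ∧ ab sS (10 * m + a) (vA n p v) v = true then 1 else 0) +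
        (if vC n p v < v ∧ ab sS (10 * m + a) (vC n p v) v = true then 1 else 0)) := by
    rw [show 10 * m + (a + 1) = a + 1 + 10 * m by ring, show 10 * m + 10 = 10 + 10 * m by ring,
      ← Finset.sum_Ico_add _ (a + 1) 10 (10 * m)]
    apply Finset.sum_congr rfl
    intro c hc
    rw [Finset.mem_Ico] at hc
    rw [ind_eq (by omega) (by omega) (P.vA_ne (by omega)),
      ind_eq (by omega) (by omega) (P.vC_ne (by omega))]
  rw [h1]
  symm
  apply Finset.sum_subset
  · intro v hv
    rw [Finset.mem_Ico] at hv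
    rw [Finset.mem_range]
    omega
  · intro v hv hv'
    rw [Finset.mem_range] at hv
    rw [Finset.mem_Ico] at hv'
    have h2 : ∀ y, ¬ (y < v ∧ ab sS (10 * m + a) y v = true) := by
      rintro y ⟨h3, h4⟩
      rw [ab_other ha (by omega) h3] at h4
      exact absurd h4 (by simp)
    rw [if_neg (h2 _), if_neg (h2 _)]
    rfl

theorem wgt_eq {m a x y : ℕ} (par : Bool) (ha : a < 10) (hx : x ≠ 10 * m + a) (hy : y ≠ 10 * m + a) :
    wgt sS par x (10 * m + a) y = wgt sv par (ph (10 * m) x) (a + 1) (ph (10 * m) y) := by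
  have e1 := ph_self (B := 10 * m) ha
  rw [← e1]
  have hlt : ∀ z, z ≠ 10 * m + a → ((z < 10 * m + a ↔ ph (10 * m) z < ph (10 * m) (10 * m + a)) ∧
      (10 * m + a < z ↔ ph (10 * m) (10 * m + a) < ph (10 * m) z)) := by
    intro z hz
    refine ⟨⟨?_, ph_mono⟩, ⟨?_, ph_mono⟩⟩
    · intro h; rw [e1]; unfold ph; split_ifs <;> omega
    · intro h; rw [e1]; unfold ph; split_ifs <;> omega
  have hx1 := hlt x hx
  have hy1 := hlt y hy
  unfold wgt
  have he : ext x (10 * m + a) y ↔ ext (ph (10 * m) x) (ph (10 * m) (10 * m + a)) (ph (10 * m) y) := by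
    unfold ext; rw [hx1.1, hx1.2, hy1.1, hy1.2]
  by_cases h : ext x (10 * m + a) y
  · rw [if_pos h, if_pos (he.1 h)]
  · rw [if_neg h, if_neg (fun z => h (he.2 z))]
    have hcap : cap sS x (10 * m + a) y =
        cap sv (ph (10 * m) x) (ph (10 * m) (10 * m + a)) (ph (10 * m) y) := by
      unfold cap
      unfold ext at h
      rcases Nat.lt_or_gt_of_ne hx with h1 | h1 <;> rcases Nat.lt_or_gt_of_ne hy with h2 | h2
      · exact absurd (Or.inl ⟨h1, h2⟩) h
      · have h3 := hx1.1.1 h1
        have h4 := hy1.2.1 h2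
        rw [if_pos (by omega), if_pos (by omega), transfer h3 h4]
      · have h3 := hx1.2.1 h1
        have h4 := hy1.1.1 h2
        rw [if_neg (by omega), if_neg (by omega), transfer h4 h3]
      · exact absurd (Or.inr ⟨h1, h2⟩) h
    rw [hcap]

/-- the search is successful -/
def Good : Prop := go (tab 10) 0 0 0 0 0 0 = true

/-- a cluster has weight at least 8 -/
theorem Full.cluster (P : Full n sS p) {m : ℕ} (hm : 10 * m + 10 ≤ n)
    (hgo : Good) :
    8 ≤ ∑ a ∈ range 10, wgt sS (decide (Kv sS n p (10 * m + a) % 2 = 1))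
      (vA n p (10 * m + a)) (10 * m + a) (vC n p (10 * m + a)) := by
  have h := sound (P.LC hm) hgo
  refine le_trans h (le_of_eq ?_)
  apply Finset.sum_congr rfl
  intro a ha
  rw [Finset.mem_range] at ha
  rw [wgt_eq _ ha (P.vA_ne (by omega)) (P.vC_ne (by omega))]
  unfold wl
  rw [vp_cd, vp_cd, parB_pl _ _ _ _ (by omega), P.Kv_cluster hm ha,
    show 10 - (9 - a) = a + 1 by omega]

theorem Full.total (P : Full n sS p) (hgo : Good) :
    8 * (n / 10) ≤ ∑ u ∈ range n, wgt sS (decide (Kv sS n p u % 2 = 1))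
      (vA n p u) u (vC n p u) := by
  have h1 : ∀ M, M ≤ n / 10 → 8 * M ≤ ∑ u ∈ range (10 * M),
      wgt sS (decide (Kv sS n p u % 2 = 1)) (vA n p u) u (vC n p u) := by
    intro M
    induction M with
    | zero => intro _; simp
    | succ M ih =>
      intro hM
      rw [show 10 * (M + 1) = 10 * M + 10 by ring, Finset.sum_range_add]
      have h2 := ih (by omega)
      have h3 := P.cluster (m := M) (by omega) hgo
      omega
  refine le_trans (h1 _ le_rfl) ?_
  apply Finset.sum_le_sum_of_subset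
  intro u hu
  rw [Finset.mem_range] at hu ⊢
  omega

theorem Full.sum_eq' (P : Full n sS p) :
    ∑ k ∈ range n, wgt sS (decide (W sS n p (k + 1) % 2 = 1)) (p k) (p (k + 1)) (p (k + 2)) =
    ∑ u ∈ range n, wgt sS (decide (Kv sS n p u % 2 = 1)) (vA n p u) u (vC n p u) := by
  rw [← P.sum_eq (fun x y z => wgt sS (decide (Kv sS n p y % 2 = 1)) x y z)]
  apply Finset.sum_congr rfl
  intro k _
  have h : decide (W sS n p (k + 1) % 2 = 1) = decide (Kv sS n p (p (k + 1)) % 2 = 1) := by
    rw [decide_eq_decide]; exact P.toPoly.W_parity (k + 1)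
  rw [h]

theorem Full.bound (P : Full n sS p) (h0 : ∀ k, p 0 ≤ p k) (hgo : Good) :
    8 * (n / 10) ≤ 3 * ((range n).filter fun k =>
        left sS (p k) (p (k + 1)) (p (k + 2)) ≠ left sS (p (n - 1)) (p 0) (p 1)).card + 4 := by
  have h1 := P.total hgo
  rw [← P.sum_eq', P.toPoly.wgt_sum h0] at h1
  exact h1

end Pool.Agent.H41.Refl
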