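import Pool.Agent.H41.Refl.G

/-! Geometry: non-crossing segments, orientation. -/

set_option autoImplicit false

namespace Pool.Agent.H41.Refl

open Finset

/-- twice the signed area of the triangle `abc` -/
def det (a b c : ℝ × ℝ) : ℝ := (b.1 - a.1) * (c.2 - a.2) - (b.2 - a.2) * (c.1 - a.1)

/-- height of the line `PQ` at abscissa `x` -/
noncomputable def ht (P Q : ℝ × ℝ) (x : ℝ) : ℝ := P.2 + (Q.2 - P.2) / (Q.1 - P.1) * (x - P.1)

theorem ht_det {P Q : ℝ × ℝ} (h : P.1 < Q.1) (R : ℝ × ℝ) :
    (Q.1 - P.1) * (R.2 - ht P Q R.1) = det P Q R := by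
  have : Q.1 - P.1 ≠ 0 := by linarith
  unfold ht det
  field_simp
  ring

theorem ht_left (P Q : ℝ × ℝ) : ht P Q P.1 = P.2 := by unfold ht; simp

theorem ht_right {P Q : ℝ × ℝ} (h : P.1 < Q.1) : ht P Q Q.1 = Q.2 := by
  have : Q.1 - P.1 ≠ 0 := by linarith
  unfold ht; field_simp; ring

theorem mem_seg {P Q : ℝ × ℝ} (h : P.1 < Q.1) {x : ℝ} (h1 : P.1 ≤ x) (h2 : x ≤ Q.1) :
    (x, ht P Q x) ∈ segment ℝ P Q := by
  have hpos : 0 < Q.1 - P.1 := by linarith
  refine ⟨(Q.1 - x) / (Q.1 - P.1), (x - P.1) / (Q.1 - P.1), ?_, ?_, ?_, ?_⟩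
  · apply div_nonneg <;> linarith
  · apply div_nonneg <;> linarith
  · field_simp; ring
  · ext
    · simp only [Prod.fst_add, Prod.smul_fst, smul_eq_mul]
      field_simp; ring
    · simp only [Prod.snd_add, Prod.smul_snd, smul_eq_mul]
      unfold ht
      field_simp; ring

theorem ht_cont (P Q : ℝ × ℝ) : Continuous (ht P Q) := by
  unfold ht; fun_prop

theorem exists_cross {P Q R T : ℝ × ℝ} (h1 : P.1 < Q.1) (h2 : R.1 < T.1) {u v : ℝ} (huv : u ≤ v)
    (hu1 : P.1 ≤ u) (hu2 : R.1 ≤ u) (hv1 : v ≤ Q.1) (hv2 : v ≤ T.1)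
    (hs : (0 ≤ ht P Q u - ht R T u ∧ ht P Q v - ht R T v ≤ 0) ∨
      (ht P Q u - ht R T u ≤ 0 ∧ 0 ≤ ht P Q v - ht R T v)) :
    ∃ z, z ∈ segment ℝ P Q ∧ z ∈ segment ℝ R T := by
  have hc : ContinuousOn (fun x => ht P Q x - ht R T x) (Set.Icc u v) :=
    ((ht_cont P Q).sub (ht_cont R T)).continuousOn
  have : ∃ x ∈ Set.Icc u v, ht P Q x - ht R T x = 0 := by
    rcases hs with ⟨ha, hb⟩ | ⟨ha, hb⟩
    · exact intermediate_value_Icc' huv hc ⟨hb, ha⟩
    · exact intermediate_value_Icc huv hc ⟨ha, hb⟩
  obtain ⟨x, hx, hx0⟩ := this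
  refine ⟨(x, ht P Q x), mem_seg h1 (by linarith [hx.1]) (by linarith [hx.2]), ?_⟩
  rw [show ht P Q x = ht R T x by linarith]
  exact mem_seg h2 (by linarith [hx.1]) (by linarith [hx.2])

/-- the points `q j`, `j < n`, are sorted by abscissa and have order type `s` -/
structure Rep (n : ℕ) (s : ℕ → ℕ → ℕ → Bool) (q : ℕ → ℝ × ℝ) : Prop where
  mono : ∀ i j, i < j → j < n → (q i).1 < (q j).1
  pos : ∀ i j k, i < j → j < k → k < n → s i j k = true → 0 < det (q i) (q j) (q k)
  neg : ∀ i j k, i < j → j < k → k < n → s i j k = false → det (q i) (q j) (q k) < 0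

variable {n : ℕ} {s : ℕ → ℕ → ℕ → Bool} {q : ℕ → ℝ × ℝ}

theorem det_swap (a b c : ℝ × ℝ) : det a c b = - det a b c := by unfold det; ring
theorem det_cyc (a b c : ℝ × ℝ) : det b c a = det a b c := by unfold det; ring

theorem ht_of_det_pos {P Q : ℝ × ℝ} (h : P.1 < Q.1) {R : ℝ × ℝ} (hd : 0 < det P Q R) :
    ht P Q R.1 < R.2 := by
  rw [← ht_det h] at hd
  have h1 : 0 < Q.1 - P.1 := by linarith
  have := (pos_iff_pos_of_mul_pos hd).1 h1
  linarith

theorem ht_of_det_neg {P Q : ℝ × ℝ} (h : P.1 < Q.1) {R : ℝ × ℝ} (hd : det P Q R < 0) :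
    R.2 < ht P Q R.1 := by
  rw [← ht_det h] at hd
  have h1 : 0 < Q.1 - P.1 := by linarith
  by_contra hc
  push Not at hc
  have : 0 ≤ (Q.1 - P.1) * (R.2 - ht P Q R.1) := mul_nonneg h1.le (by linarith)
  linarith

theorem Rep.nc1 (H : Rep n s q) {a b c d : ℕ} (h1 : a < c) (h2 : c < b) (h3 : b < d) (hd : d < n)
    (hdis : Disjoint (segment ℝ (q a) (q b)) (segment ℝ (q c) (q d))) : s a c b ≠ s c b d := by
  intro he
  have hab := H.mono a b (by omega) (by omega)
  have hcd := H.mono c d (by omega) (by omega)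
  have hac := H.mono a c (by omega) (by omega)
  have hcb := H.mono c b (by omega) (by omega)
  have hbd := H.mono b d (by omega) (by omega)
  obtain ⟨z, hz1, hz2⟩ := exists_cross (P := q a) (Q := q b) (R := q c) (T := q d) hab hcd
    (u := (q c).1) (v := (q b).1) hcb.le hac.le le_rfl le_rfl hbd.le (by
      rw [ht_left, ht_right hab]
      rcases h : s a c b
      · right
        have d1 := H.neg a c b h1 h2 (by omega) h
        have d2 := H.neg c b d h2 h3 hd (by rw [← he, h])
        rw [det_swap] at d1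
        rw [det_swap] at d2
        have e1 := ht_of_det_pos hab (R := q c) (by linarith)
        have e2 := ht_of_det_pos hcd (R := q b) (by linarith)
        constructor <;> linarith
      · left
        have d1 := H.pos a c b h1 h2 (by omega) h
        have d2 := H.pos c b d h2 h3 hd (by rw [← he, h])
        rw [det_swap] at d1
        rw [det_swap] at d2
        have e1 := ht_of_det_neg hab (R := q c) (by linarith)
        have e2 := ht_of_det_neg hcd (R := q b) (by linarith)
        constructor <;> linarith)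
  exact Set.disjoint_left.1 hdis hz1 hz2

theorem Rep.nc3 (H : Rep n s q) {a b c d : ℕ} (h1 : a < c) (h2 : c < d) (h3 : d < b) (hb : b < n)
    (hdis : Disjoint (segment ℝ (q a) (q b)) (segment ℝ (q c) (q d))) : s a c b = s a d b := by
  by_contra he
  have hab := H.mono a b (by omega) (by omega)
  have hcd := H.mono c d (by omega) (by omega)
  have hac := H.mono a c (by omega) (by omega)
  have hdb := H.mono d b (by omega) (by omega)
  obtain ⟨z, hz1, hz2⟩ := exists_cross (P := q a) (Q := q b) (R := q c) (T := q d) hab hcd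
    (u := (q c).1) (v := (q d).1) hcd.le hac.le le_rfl hdb.le le_rfl (by
      rw [ht_left, ht_right hcd]
      rcases h : s a c b
      · right
        have h' : s a d b = true := by
          rcases h' : s a d b
          · exact absurd (h.trans h'.symm) he
          · rfl
        have d1 := H.neg a c b h1 (by omega) (by omega) h
        have d2 := H.pos a d b (by omega) h3 hb h'
        rw [det_swap] at d1
        rw [det_swap] at d2
        have e1 := ht_of_det_pos hab (R := q c) (by linarith)
        have e2 := ht_of_det_neg hab (R := q d) (by linarith)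
        constructor <;> linarith
      · left
        have h' : s a d b = false := by
          rcases h' : s a d b
          · rfl
          · exact absurd (h.trans h'.symm) he
        have d1 := H.pos a c b h1 (by omega) (by omega) h
        have d2 := H.neg a d b (by omega) h3 hb h'
        rw [det_swap] at d1
        rw [det_swap] at d2
        have e1 := ht_of_det_neg hab (R := q c) (by linarith)
        have e2 := ht_of_det_pos hab (R := q d) (by linarith)
        constructor <;> linarith)
  exact Set.disjoint_left.1 hdis hz1 hz2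

theorem Rep.nc0 (H : Rep n s q) {a b c d : ℕ} (_ha : a < n) (hb : b < n) (_hc : c < n) (hd : d < n)
    (hdis : Disjoint (segment ℝ (q a) (q b)) (segment ℝ (q c) (q d))) : NC0 s a b c d := by
  refine ⟨?_, ?_, ?_, ?_⟩
  · intro h1 h2 h3
    exact H.nc1 h1 h2 h3 hd hdis
  · intro h1 h2 h3
    exact H.nc1 h1 h2 h3 hb hdis.symm
  · intro h1 h2 h3
    exact H.nc3 h1 h2 h3 hb hdis
  · intro h1 h2 h3
    exact H.nc3 h1 h2 h3 hd hdis.symm

theorem Rep.nc (H : Rep n s q) {a b c d : ℕ} (ha : a < n) (hb : b < n) (hc : c < n) (hd : d < n)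
    (hdis : Disjoint (segment ℝ (q a) (q b)) (segment ℝ (q c) (q d))) : NC s a b c d := by
  refine ⟨H.nc0 ha hb hc hd hdis, H.nc0 hb ha hc hd ?_, H.nc0 ha hb hd hc ?_,
    H.nc0 hb ha hd hc ?_⟩
  · rwa [segment_symm]
  · rwa [segment_symm ℝ (q d)]
  · rwa [segment_symm ℝ (q d), segment_symm ℝ (q b)]

theorem Rep.left_iff (H : Rep n s q) {a b c : ℕ} (ha : a < n) (hb : b < n) (hc : c < n)
    (hab : a ≠ b) (hbc : b ≠ c) (hac : a ≠ c) :
    (left s a b c = true → 0 < det (q a) (q b) (q c)) ∧
    (left s a b c = false → det (q a) (q b) (q c) < 0) := by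
  have e1 : det (q a) (q b) (q c) = - det (q a) (q c) (q b) := by unfold det; ring
  have e2 : det (q a) (q b) (q c) = det (q c) (q a) (q b) := by unfold det; ring
  have e3 : det (q a) (q b) (q c) = - det (q c) (q b) (q a) := by unfold det; ring
  have e4 : det (q a) (q b) (q c) = det (q b) (q c) (q a) := by unfold det; ring
  have e5 : det (q a) (q b) (q c) = - det (q b) (q a) (q c) := by unfold det; ring
  unfold left
  split_ifs with h1 h2 h3 h4 h5
  · exact ⟨H.pos a b c h1 h2 hc, H.neg a b c h1 h2 hc⟩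
  · rw [e1]
    constructor
    · intro h
      have := H.neg a c b h3 (by omega) hb (by simpa using h)
      linarith
    · intro h
      have := H.pos a c b h3 (by omega) hb (by simpa using h)
      linarith
  · rw [e2]
    exact ⟨H.pos c a b (by omega) h1 hb, H.neg c a b (by omega) h1 hb⟩
  · rw [e3]
    constructor
    · intro h
      have := H.neg c b a h4 (by omega) ha (by simpa using h)
      linarith
    · intro h
      have := H.pos c b a h4 (by omega) ha (by simpa using h)
      linarith
  · rw [e4]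
    exact ⟨H.pos b c a (by omega) h5 ha, H.neg b c a (by omega) h5 ha⟩
  · rw [e5]
    constructor
    · intro h
      have := H.neg b a c (by omega) (by omega) hc (by simpa using h)
      linarith
    · intro h
      have := H.pos b a c (by omega) (by omega) hc (by simpa using h)
      linarith

end Pool.Agent.H41.Refl
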