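import Pool.Agent.H41.Refl.H
import Pool.Agent.H41.Refl.I

/-! The point set. -/

set_option autoImplicit false

namespace Pool.Agent.H41.Refl

open Finset

/-- the points of a cluster at parameter `t` -/
noncomputable def cp (t : ℝ) (c : ℕ) : ℝ × ℝ := (t + X c, t * ((Y c : ℝ) - X c) - t ^ 2)

/-- the points -/
noncomputable def qS (j : ℕ) : ℝ × ℝ := cp (100000 ^ (j / 10 + 1)) (j % 10)

theorem X_le {c : ℕ} (hc : c < 10) : (X c : ℝ) ≤ 21 := by
  have : X c ≤ 21 := by interval_cases c <;> decide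
  exact_mod_cast this

theorem Y_le {c : ℕ} (hc : c < 10) : (Y c : ℝ) ≤ 40 := by
  have : Y c ≤ 40 := by interval_cases c <;> decide
  exact_mod_cast this

theorem X_lt {c d : ℕ} (hcd : c < d) (hd : d < 10) : (X c : ℝ) + 1 ≤ X d := by
  have : X c + 1 ≤ X d := by interval_cases d <;> interval_cases c <;> decide
  exact_mod_cast this

theorem Y_ne {c d : ℕ} (hcd : c < d) (hd : d < 10) : Y c ≠ Y d := by
  interval_cases d <;> interval_cases c <;> decide

theorem loc_ne {c d e : ℕ} (hcd : c < d) (hde : d < e) (he : e < 10) :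
    X d * Y c + X c * Y e + X e * Y d ≠ X d * Y e + X c * Y d + X e * Y c := by
  interval_cases e <;> interval_cases d <;> interval_cases c <;> decide

/-- same cluster -/
theorem det_same (t : ℝ) (a b c : ℕ) : det (cp t a) (cp t b) (cp t c) =
    t * (((X b * Y c + X a * Y b + X c * Y a : ℕ) : ℝ) - ((X b * Y a + X a * Y c + X c * Y b : ℕ) : ℝ)) := by
  unfold det cp
  push_cast
  ring

theorem sign_same {t : ℝ} (ht : 0 < t) {a b c : ℕ} (hab : a < b) (hbc : b < c) (hc : c < 10) :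
    (loc a b c = true → 0 < det (cp t a) (cp t b) (cp t c)) ∧
    (loc a b c = false → det (cp t a) (cp t b) (cp t c) < 0) := by
  rw [det_same]
  have hne := loc_ne hab hbc hc
  unfold loc
  constructor
  · intro h
    rw [Nat.blt_eq] at h
    have : ((X b * Y a + X a * Y c + X c * Y b : ℕ) : ℝ) < ((X b * Y c + X a * Y b + X c * Y a : ℕ) : ℝ) := by
      exact_mod_cast h
    apply mul_pos ht
    linarith
  · intro h
    rw [← Bool.not_eq_true, Nat.blt_eq] at h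
    have h' : X b * Y c + X a * Y b + X c * Y a < X b * Y a + X a * Y c + X c * Y b := by omega
    have : ((X b * Y c + X a * Y b + X c * Y a : ℕ) : ℝ) < ((X b * Y a + X a * Y c + X c * Y b : ℕ) : ℝ) := by
      exact_mod_cast h'
    apply mul_neg_of_pos_of_neg ht
    linarith

/-- two points in a cluster and a later one -/
theorem num_late {t u x1 x2 x3 y1 y2 y3 : ℝ} (ht : 1 ≤ t) (hu : 100000 * t ≤ u)
    (hx1 : 0 ≤ x1) (hx1' : x1 ≤ 21) (hx2 : x1 + 1 ≤ x2) (hx2' : x2 ≤ 21)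
    (hx3 : 0 ≤ x3) (hx3' : x3 ≤ 21) (hy1 : 0 ≤ y1) (hy1' : y1 ≤ 40) (hy2 : 0 ≤ y2)
    (hy2' : y2 ≤ 40) (hy3 : 0 ≤ y3) (hy3' : y3 ≤ 40) :
    det (t + x1, t * (y1 - x1) - t ^ 2) (t + x2, t * (y2 - x2) - t ^ 2)
      (u + x3, u * (y3 - x3) - u ^ 2) < 0 := by
  unfold det
  simp only
  have h1 : u * (y3 - x3) - u ^ 2 - (t * (y1 - x1) - t ^ 2) ≤ - u ^ 2 / 2 := by
    nlinarith [mul_nonneg (show (0:ℝ) ≤ u by linarith) hx3, mul_nonneg (show (0:ℝ) ≤ t by linarith) hy1,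
      mul_le_mul_of_nonneg_left hy3' (show (0:ℝ) ≤ u by linarith),
      mul_le_mul_of_nonneg_left hx1' (show (0:ℝ) ≤ t by linarith)]
  have h2 : (t + x2 - (t + x1)) * (u * (y3 - x3) - u ^ 2 - (t * (y1 - x1) - t ^ 2)) ≤
      1 * (- u ^ 2 / 2) := by
    have h3 : 1 ≤ t + x2 - (t + x1) := by linarith
    nlinarith [sq_nonneg u]
  have h3 : -(t * (y2 - x2) - t ^ 2 - (t * (y1 - x1) - t ^ 2)) ≤ 61 * t := by
    nlinarith
  have h4 : -((t * (y2 - x2) - t ^ 2 - (t * (y1 - x1) - t ^ 2)) * (u + x3 - (t + x1))) ≤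
      61 * t * (u + 21) := by
    have h5 : 0 ≤ u + x3 - (t + x1) := by linarith
    have h6 : u + x3 - (t + x1) ≤ u + 21 := by linarith
    have h7 : (0:ℝ) ≤ 61 * t := by linarith
    calc -((t * (y2 - x2) - t ^ 2 - (t * (y1 - x1) - t ^ 2)) * (u + x3 - (t + x1)))
        = (-(t * (y2 - x2) - t ^ 2 - (t * (y1 - x1) - t ^ 2))) * (u + x3 - (t + x1)) := by ring
      _ ≤ (61 * t) * (u + x3 - (t + x1)) := mul_le_mul_of_nonneg_right h3 h5
      _ ≤ (61 * t) * (u + 21) := mul_le_mul_of_nonneg_left h6 h7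
  nlinarith

/-- an earlier point and two points in a cluster -/
theorem num_early {t u x1 x2 x3 y1 y2 y3 : ℝ} (ht : 1 ≤ t) (hu : 100000 * t ≤ u)
    (hx1 : 0 ≤ x1) (hx1' : x1 ≤ 21) (hx2 : 0 ≤ x2) (hx3 : x2 + 1 ≤ x3) (hx3' : x3 ≤ 21)
    (hy1 : 0 ≤ y1) (hy1' : y1 ≤ 40) (hy2 : 0 ≤ y2)
    (hy2' : y2 ≤ 40) (hy3 : 0 ≤ y3) (hy3' : y3 ≤ 40) :
    |det (t + x1, t * (y1 - x1) - t ^ 2) (u + x2, u * (y2 - x2) - u ^ 2)
      (u + x3, u * (y3 - x3) - u ^ 2) - u ^ 2 * (y3 - y2)| < u ^ 2 := by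
  have e : det (t + x1, t * (y1 - x1) - t ^ 2) (u + x2, u * (y2 - x2) - u ^ 2)
      (u + x3, u * (y3 - x3) - u ^ 2) - u ^ 2 * (y3 - y2) =
      u * ((x2 - t - x1) * ((y3 - y2) - (x3 - x2)) - (x3 - x2) * (y2 - x2)) +
        t * ((x3 - x2) * (y1 - x1 - t)) := by
    unfold det; ring
  rw [e]
  have h1 : |(x2 - t - x1) * ((y3 - y2) - (x3 - x2))| ≤ (22 * t) * 61 := by
    rw [abs_mul]
    apply mul_le_mul _ _ (abs_nonneg _) (by linarith)
    · rw [abs_le]; constructor <;> linarith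
    · rw [abs_le]; constructor <;> linarith
  have h2 : |(x3 - x2) * (y2 - x2)| ≤ 21 * 40 := by
    rw [abs_mul]
    apply mul_le_mul _ _ (abs_nonneg _) (by linarith)
    · rw [abs_le]; constructor <;> linarith
    · rw [abs_le]; constructor <;> linarith
  have h3 : |(x3 - x2) * (y1 - x1 - t)| ≤ 21 * (40 + t) := by
    rw [abs_mul]
    apply mul_le_mul _ _ (abs_nonneg _) (by linarith)
    · rw [abs_le]; constructor <;> linarith
    · rw [abs_le]; constructor <;> linarith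
  have h4 : |u * ((x2 - t - x1) * ((y3 - y2) - (x3 - x2)) - (x3 - x2) * (y2 - x2)) +
        t * ((x3 - x2) * (y1 - x1 - t))| ≤ u * ((22 * t) * 61 + 21 * 40) + t * (21 * (40 + t)) := by
    refine (abs_add_le _ _).trans ?_
    rw [abs_mul, abs_mul t, abs_of_nonneg (show 0 ≤ u by linarith),
      abs_of_nonneg (show 0 ≤ t by linarith)]
    apply add_le_add
    · apply mul_le_mul_of_nonneg_left _ (by linarith)
      exact (abs_sub _ _).trans (add_le_add h1 h2)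
    · exact mul_le_mul_of_nonneg_left h3 (by linarith)
  refine lt_of_le_of_lt h4 ?_
  have h5 : u * ((22 * t) * 61 + 21 * 40) ≤ u * (2182 * t) := by
    apply mul_le_mul_of_nonneg_left _ (by linarith); linarith
  have h6 : t * (21 * (40 + t)) ≤ t * (861 * t) := by
    apply mul_le_mul_of_nonneg_left _ (by linarith); linarith
  have h7 : t * t ≤ u * t := by
    apply mul_le_mul_of_nonneg_right _ (by linarith); linarith
  nlinarith

/-- three clusters -/
theorem num_three {t u w x1 x2 x3 y1 y2 y3 : ℝ} (ht : 1 ≤ t) (hu : 100000 * t ≤ u)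
    (hw : 100000 * u ≤ w)
    (hx1 : 0 ≤ x1) (hx1' : x1 ≤ 21) (hx2 : 0 ≤ x2) (hx2' : x2 ≤ 21)
    (hx3 : 0 ≤ x3) (hx3' : x3 ≤ 21) (hy1 : 0 ≤ y1) (hy1' : y1 ≤ 40) (hy2 : 0 ≤ y2)
    (hy2' : y2 ≤ 40) (hy3 : 0 ≤ y3) (hy3' : y3 ≤ 40) :
    det (t + x1, t * (y1 - x1) - t ^ 2) (u + x2, u * (y2 - x2) - u ^ 2)
      (w + x3, w * (y3 - x3) - w ^ 2) < 0 := by
  unfold det
  simp only
  have hupos : (0:ℝ) < u := by linarith
  have hwpos : (0:ℝ) < w := by linarith
  have h1 : w * (y3 - x3) - w ^ 2 - (t * (y1 - x1) - t ^ 2) ≤ - w ^ 2 / 2 := by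
    nlinarith [mul_nonneg hwpos.le hx3, mul_nonneg (show (0:ℝ) ≤ t by linarith) hy1,
      mul_le_mul_of_nonneg_left hy3' hwpos.le,
      mul_le_mul_of_nonneg_left hx1' (show (0:ℝ) ≤ t by linarith)]
  have h0 : u / 2 ≤ u + x2 - (t + x1) := by linarith
  have h2 : (u + x2 - (t + x1)) * (w * (y3 - x3) - w ^ 2 - (t * (y1 - x1) - t ^ 2)) ≤
      (u / 2) * (- w ^ 2 / 2) := by
    have h3 : (u + x2 - (t + x1)) * (w * (y3 - x3) - w ^ 2 - (t * (y1 - x1) - t ^ 2)) ≤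
        (u + x2 - (t + x1)) * (- w ^ 2 / 2) := mul_le_mul_of_nonneg_left h1 (by linarith)
    have h4 : (u + x2 - (t + x1)) * (- w ^ 2 / 2) ≤ (u / 2) * (- w ^ 2 / 2) := by
      apply mul_le_mul_of_nonpos_right h0
      nlinarith [sq_nonneg w]
    linarith
  have h3 : -(u * (y2 - x2) - u ^ 2 - (t * (y1 - x1) - t ^ 2)) ≤ 2 * u ^ 2 := by
    nlinarith [mul_nonneg hupos.le hy2, mul_le_mul_of_nonneg_left (show x2 ≤ 21 from hx2') hupos.le,
      mul_le_mul_of_nonneg_left hy1' (show (0:ℝ) ≤ t by linarith),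
      mul_nonneg (show (0:ℝ) ≤ t by linarith) hx1, sq_nonneg t]
  have h4 : -((u * (y2 - x2) - u ^ 2 - (t * (y1 - x1) - t ^ 2)) * (w + x3 - (t + x1))) ≤
      2 * u ^ 2 * (2 * w) := by
    have h5 : 0 ≤ w + x3 - (t + x1) := by linarith
    have h6 : w + x3 - (t + x1) ≤ 2 * w := by linarith
    have h7 : (0:ℝ) ≤ 2 * u ^ 2 := by positivity
    calc -((u * (y2 - x2) - u ^ 2 - (t * (y1 - x1) - t ^ 2)) * (w + x3 - (t + x1)))
        = (-(u * (y2 - x2) - u ^ 2 - (t * (y1 - x1) - t ^ 2))) * (w + x3 - (t + x1)) := by ring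
      _ ≤ (2 * u ^ 2) * (w + x3 - (t + x1)) := mul_le_mul_of_nonneg_right h3 h5
      _ ≤ (2 * u ^ 2) * (2 * w) := mul_le_mul_of_nonneg_left h6 h7
  have h5 : u * u * w ≤ u * w * w / 100000 := by
    have : u * w * (100000 * u) ≤ u * w * w := mul_le_mul_of_nonneg_left hw (by positivity)
    nlinarith
  have h6 : 0 < u * w * w := by positivity
  nlinarith

end Pool.Agent.H41.Refl
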