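import Pool.Agent.H41.Refl.J

/-! The order type of the point set. -/

set_option autoImplicit false

namespace Pool.Agent.H41.Refl

open Finset

/-- the parameter of the `i`-th cluster -/
noncomputable def tt (i : ℕ) : ℝ := 100000 ^ (i + 1)

theorem tt_one (i : ℕ) : 1 ≤ tt i := one_le_pow₀ (by norm_num)

theorem tt_step {i j : ℕ} (h : i < j) : 100000 * tt i ≤ tt j := by
  unfold tt
  calc (100000 : ℝ) * 100000 ^ (i + 1) = 100000 ^ (i + 2) := by ring
    _ ≤ 100000 ^ (j + 1) := pow_le_pow_right₀ (by norm_num) (by omega)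

theorem qS_def (j : ℕ) : qS j = (tt (j / 10) + X (j % 10),
    tt (j / 10) * ((Y (j % 10) : ℝ) - X (j % 10)) - tt (j / 10) ^ 2) := rfl

theorem X0 (c : ℕ) : (0 : ℝ) ≤ X c := Nat.cast_nonneg _
theorem Y0 (c : ℕ) : (0 : ℝ) ≤ Y c := Nat.cast_nonneg _

theorem qS_mono {i j : ℕ} (h : i < j) : (qS i).1 < (qS j).1 := by
  rw [qS_def, qS_def]
  simp only
  by_cases hc : i / 10 = j / 10
  · rw [hc]
    have := X_lt (c := i % 10) (d := j % 10) (by omega) (by omega)
    linarith
  · have h1 := tt_step (i := i / 10) (j := j / 10) (by omega)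
    have h2 := tt_one (i / 10)
    have h3 := X_le (c := i % 10) (by omega)
    have h4 := X0 (j % 10)
    linarith

theorem rep (n : ℕ) : Rep n sS qS := by
  have key : ∀ i j k, i < j → j < k →
      (sS i j k = true → 0 < det (qS i) (qS j) (qS k)) ∧
      (sS i j k = false → det (qS i) (qS j) (qS k) < 0) := by
    intro i j k hij hjk
    have mi : i % 10 < 10 := Nat.mod_lt _ (by norm_num)
    have mj : j % 10 < 10 := Nat.mod_lt _ (by norm_num)
    have mk : k % 10 < 10 := Nat.mod_lt _ (by norm_num)
    unfold sS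
    by_cases h1 : k / 10 ≠ j / 10
    · rw [if_pos h1]
      refine ⟨fun h => absurd h (by simp), fun _ => ?_⟩
      rw [qS_def, qS_def, qS_def]
      have hs := tt_step (i := j / 10) (j := k / 10) (by omega)
      by_cases h2 : i / 10 = j / 10
      · rw [h2]
        exact num_late (tt_one _) hs (X0 _) (X_le mi) (X_lt (by omega) mj) (X_le mj) (X0 _)
          (X_le mk) (Y0 _) (Y_le mi) (Y0 _) (Y_le mj) (Y0 _) (Y_le mk)
      · have hs2 := tt_step (i := i / 10) (j := j / 10) (by omega)
        exact num_three (tt_one _) hs2 hs (X0 _) (X_le mi) (X0 _) (X_le mj) (X0 _)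
          (X_le mk) (Y0 _) (Y_le mi) (Y0 _) (Y_le mj) (Y0 _) (Y_le mk)
    · rw [if_neg h1]
      push Not at h1
      by_cases h2 : i / 10 = j / 10
      · rw [if_pos h2]
        have := sign_same (t := tt (j / 10)) (lt_of_lt_of_le one_pos (tt_one _))
          (a := i % 10) (b := j % 10) (c := k % 10) (by omega) (by omega) mk
        have e1 : qS i = cp (tt (j / 10)) (i % 10) := by rw [← h2]; rfl
        have e2 : qS j = cp (tt (j / 10)) (j % 10) := rfl
        have e3 : qS k = cp (tt (j / 10)) (k % 10) := by rw [← h1]; rfl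
        rw [e1, e2, e3]
        exact this
      · rw [if_neg h2, qS_def, qS_def, qS_def, h1]
        have hs := tt_step (i := i / 10) (j := j / 10) (by omega)
        have hY := Y_ne (c := j % 10) (d := k % 10) (by omega) mk
        have hn := abs_lt.1 (num_early (tt_one (i / 10)) hs (X0 (i % 10)) (X_le mi) (X0 (j % 10))
          (X_lt (c := j % 10) (d := k % 10) (by omega) mk) (X_le mk) (Y0 (i % 10)) (Y_le mi)
          (Y0 (j % 10)) (Y_le mj) (Y0 (k % 10)) (Y_le mk))
        unfold bl
        have hsq : 0 ≤ tt (j / 10) ^ 2 := sq_nonneg _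
        constructor
        · intro h
          rw [Nat.blt_eq] at h
          have h3 : (Y (j % 10) : ℝ) + 1 ≤ Y (k % 10) := by exact_mod_cast h
          nlinarith
        · intro h
          rw [← Bool.not_eq_true, Nat.blt_eq] at h
          have h3 : (Y (k % 10) : ℝ) + 1 ≤ Y (j % 10) := by
            have : Y (k % 10) < Y (j % 10) := by omega
            exact_mod_cast this
          nlinarith
  exact ⟨fun i j h _ => qS_mono h, fun i j k h1 h2 _ => (key i j k h1 h2).1,
    fun i j k h1 h2 _ => (key i j k h1 h2).2⟩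

end Pool.Agent.H41.Refl
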