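import Pool.Agent.H41.Refl.K

/-! From polygonizations to closed polygons over the order type. -/

set_option autoImplicit false

namespace Pool.Agent.H41.Refl

open Finset

/-- no three points of `S` are collinear -/
def GeneralPosition (S : Finset (ℝ × ℝ)) : Prop :=
  ∀ a ∈ S, ∀ b ∈ S, ∀ c ∈ S, a ≠ b → b ≠ c → a ≠ c → det a b c ≠ 0

/-- `v 0, …, v (n - 1)` is the cyclic sequence of the vertices of a simple polygon with vertex
set `S`: the `v i` are the points of `S`, each once, and two different sides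
meet at most in a common end. -/
structure IsPolygonization (S : Finset (ℝ × ℝ)) {n : ℕ} (v : ZMod n → ℝ × ℝ) : Prop where
  injective : Function.Injective v
  range_eq : Set.range v = S
  simple : ∀ i j, i ≠ j → segment ℝ (v i) (v (i + 1)) ∩ segment ℝ (v j) (v (j + 1)) ⊆
    {v i, v (i + 1)} ∩ {v j, v (j + 1)}

/-- The vertex `v i` of a simple polygon is reflex: the polygon turns at `v i` and at its
lexicographically least vertex `v j` (which is a vertex of its convex hull)
in opposite directions. -/
def IsReflex {n : ℕ} (v : ZMod n → ℝ × ℝ) (i : ZMod n) : Prop :=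
  ∃ j, (∀ k, toLex (v j) ≤ toLex (v k)) ∧
    det (v (i - 1)) (v i) (v (i + 1)) * det (v (j - 1)) (v j) (v (j + 1)) < 0

theorem main_gen {s : ℕ → ℕ → ℕ → Bool} {q : ℕ → ℝ × ℝ} {n : ℕ} (H : Rep n s q) (N : ℕ)
    (hB : ∀ p : ℕ → ℕ, Full n s p → (∀ k, p 0 ≤ p k) → N ≤ 3 * ((range n).filter fun k =>
        left s (p k) (p (k + 1)) (p (k + 2)) ≠ left s (p (n - 1)) (p 0) (p 1)).card + 4)
    (hn : 3 ≤ n) (S : Finset (ℝ × ℝ))
    (hS : S = (range n).image q) (v : ZMod n → ℝ × ℝ) (hv : IsPolygonization S v) :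
    N ≤ 3 * Set.ncard {i | IsReflex v i} + 4 := by
  classical
  have : NeZero n := ⟨by omega⟩
  have hex : ∀ i : ZMod n, ∃ j, j < n ∧ q j = v i := by
    intro i
    have h1 : v i ∈ (S : Set (ℝ × ℝ)) := by rw [← hv.range_eq]; exact ⟨i, rfl⟩
    rw [Finset.mem_coe, hS, Finset.mem_image] at h1
    obtain ⟨j, hj, h⟩ := h1
    exact ⟨j, Finset.mem_range.1 hj, h⟩
  choose idx hlt hidx using hex
  have hinj : ∀ i j, idx i = idx j → i = j := by
    intro i j h
    apply hv.injective
    rw [← hidx i, ← hidx j, h]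
  obtain ⟨k0, hk0⟩ := Finite.exists_min idx
  set p : ℕ → ℕ := fun k => idx (k0 + (k : ZMod n)) with hp
  have hq : ∀ k : ℕ, q (p k) = v (k0 + (k : ZMod n)) := fun k => hidx _
  have hcast : ∀ i j : ℕ, i < j → j < i + n → (k0 + (i : ZMod n)) ≠ (k0 + (j : ZMod n)) := by
    intro i j h1 h2 h
    have h3 := add_left_cancel h
    rw [ZMod.natCast_eq_natCast_iff] at h3
    have h4 := (Nat.modEq_iff_dvd' h1.le).1 h3
    have h5 := Nat.le_of_dvd (by omega) h4
    omega
  have hne : ∀ i j, i < j → j < i + n → p i ≠ p j := by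
    intro i j h1 h2 h
    exact hcast i j h1 h2 (hinj _ _ h)
  have hsucc : ∀ k : ℕ, k0 + (k : ZMod n) + 1 = k0 + ((k + 1 : ℕ) : ZMod n) := by
    intro k; push_cast; ring
  have P : Full n s p := by
    refine ⟨⟨hn, ?_, hne, ?_⟩, ?_⟩
    · intro k
      simp [hp]
    · intro i j h1 h2
      apply H.nc (hlt _) (hlt _) (hlt _) (hlt _)
      rw [hq, hq, hq, hq, ← hsucc, ← hsucc]
      have h3 := hv.simple (k0 + (i : ZMod n)) (k0 + (j : ZMod n)) (hcast i j (by omega) (by omega))
      rw [Set.disjoint_iff]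
      intro z hz
      have h4 := h3 hz
      exfalso
      obtain ⟨h5, h6⟩ := h4
      rw [Set.mem_insert_iff, Set.mem_singleton_iff] at h5 h6
      rw [hsucc] at h5 h6
      rcases h5 with h5 | h5 <;> rcases h6 with h6 | h6
      · exact hcast i j (by omega) (by omega) (hv.injective (h5.symm.trans h6))
      · exact hcast i (j + 1) (by omega) (by omega) (hv.injective (h5.symm.trans h6))
      · exact hcast (i + 1) j (by omega) (by omega) (hv.injective (h5.symm.trans h6))
      · exact hcast (i + 1) (j + 1) (by omega) (by omega) (hv.injective (h5.symm.trans h6))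
    · intro k
      exact hlt _
  have h0 : ∀ k, p 0 ≤ p k := by
    intro k
    simp only [hp, Nat.cast_zero, add_zero]
    exact hk0 _
  have hb := hB p P h0
  refine le_trans hb ?_
  have hcard : ((range n).filter fun k => left s (p k) (p (k + 1)) (p (k + 2)) ≠
      left s (p (n - 1)) (p 0) (p 1)).card ≤ Set.ncard {i | IsReflex v i} := by
    set F := (range n).filter fun k => left s (p k) (p (k + 1)) (p (k + 2)) ≠
      left s (p (n - 1)) (p 0) (p 1) with hF
    have hcI : (F.image fun k : ℕ => k0 + ((k + 1 : ℕ) : ZMod n)).card = F.card := by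
      apply Finset.card_image_of_injOn
      intro x hx y hy hxy
      have hx' : x < n := Finset.mem_range.1 (Finset.mem_filter.1 (Finset.mem_coe.1 hx)).1
      have hy' : y < n := Finset.mem_range.1 (Finset.mem_filter.1 (Finset.mem_coe.1 hy)).1
      by_contra hne'
      simp only at hxy
      rcases Nat.lt_or_gt_of_ne hne' with h | h
      · exact hcast (x + 1) (y + 1) (by omega) (by omega) hxy
      · exact hcast (y + 1) (x + 1) (by omega) (by omega) hxy.symm
    rw [← hcI, ← Set.ncard_coe_finset]
    apply Set.ncard_le_ncard _ (Set.toFinite _)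
    intro i hi
    rw [Finset.mem_coe, Finset.mem_image] at hi
    obtain ⟨k, hk, rfl⟩ := hi
    rw [hF, Finset.mem_filter, Finset.mem_range] at hk
    obtain ⟨hkn, hk⟩ := hk
    refine ⟨k0, ?_, ?_⟩
    · intro k
      rw [← hidx k0, ← hidx k]
      rcases (hk0 k).eq_or_lt with h | h
      · rw [h]
      · rw [Prod.Lex.toLex_le_toLex]
        left
        exact H.mono _ _ h (hlt _)
    · have e1 : v (k0 + ((k + 1 : ℕ) : ZMod n) - 1) = q (p k) := by
        rw [hq]; congr 1; push_cast; ring
      have e2 : v (k0 + ((k + 1 : ℕ) : ZMod n)) = q (p (k + 1)) := (hq _).symm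
      have e3 : v (k0 + ((k + 1 : ℕ) : ZMod n) + 1) = q (p (k + 2)) := by
        rw [hq]; congr 1; push_cast; ring
      have e4 : v (k0 - 1) = q (p (n - 1)) := by
        rw [hq]; congr 1
        rw [Nat.cast_sub (by omega)]
        simp
        ring
      have e5 : v k0 = q (p 0) := by rw [hq]; congr 1; simp
      have e6 : v (k0 + 1) = q (p 1) := by rw [hq]; congr 1; simp
      rw [e1, e2, e3, e4, e5, e6]
      have s1 := H.left_iff (a := p k) (b := p (k + 1)) (c := p (k + 2)) (hlt _) (hlt _) (hlt _)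
        (hne _ _ (by omega) (by omega)) (hne _ _ (by omega) (by omega))
        (hne _ _ (by omega) (by omega))
      have s2 := H.left_iff (a := p (n - 1)) (b := p 0) (c := p 1) (hlt _) (hlt _) (hlt _)
        (hne 0 (n - 1) (by omega) (by omega)).symm (hne _ _ (by omega) (by omega))
        (hne 1 (n - 1) (by omega) (by omega)).symm
      rcases h1 : left s (p k) (p (k + 1)) (p (k + 2)) <;>
        rcases h2 : left s (p (n - 1)) (p 0) (p 1)
      · exact absurd (h1.trans h2.symm) hk
      · exact mul_neg_of_neg_of_pos (s1.2 h1) (s2.1 h2)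
      · exact mul_neg_of_pos_of_neg (s1.1 h1) (s2.2 h2)
      · exact absurd (h1.trans h2.symm) hk
  omega

theorem main (hgo : Good) {n : ℕ} (hn : 3 ≤ n) (S : Finset (ℝ × ℝ))
    (hS : S = (range n).image qS) (v : ZMod n → ℝ × ℝ) (hv : IsPolygonization S v) :
    8 * (n / 10) ≤ 3 * Set.ncard {i | IsReflex v i} + 4 :=
  main_gen (rep n) (8 * (n / 10)) (fun _ P h0 => P.bound h0 hgo) hn S hS v hv

theorem qS_inj : Function.Injective qS := by
  intro i j h
  by_contra hne
  rcases Nat.lt_or_gt_of_ne hne with h1 | h1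
  · have := qS_mono h1
    rw [h] at this
    exact lt_irrefl _ this
  · have := qS_mono h1
    rw [h] at this
    exact lt_irrefl _ this

theorem genpos (n : ℕ) : GeneralPosition ((range n).image qS) := by
  have H := rep n
  intro a ha b hb c hc hab hbc hac
  rw [Finset.mem_image] at ha hb hc
  obtain ⟨i, hi, rfl⟩ := ha
  obtain ⟨j, hj, rfl⟩ := hb
  obtain ⟨k, hk, rfl⟩ := hc
  rw [Finset.mem_range] at hi hj hk
  have s1 := H.left_iff (a := i) (b := j) (c := k) hi hj hk (fun h => hab (by rw [h]))
    (fun h => hbc (by rw [h])) (fun h => hac (by rw [h]))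
  rcases h : left sS i j k
  · exact (s1.2 h).ne
  · exact (s1.1 h).ne'

end Pool.Agent.H41.Refl
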