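import Pool.Agent.H41.Refl.L

/-! A polygonization of the point set. -/

set_option autoImplicit false

namespace Pool.Agent.H41.Refl

open Finset

variable {n : ℕ} {s : ℕ → ℕ → ℕ → Bool} {q : ℕ → ℝ × ℝ}

/-- points of a segment lie on the line -/
theorem seg_ht {P Q z : ℝ × ℝ} (h : P.1 < Q.1) (hz : z ∈ segment ℝ P Q) :
    P.1 ≤ z.1 ∧ z.1 ≤ Q.1 ∧ z.2 = ht P Q z.1 := by
  obtain ⟨a, b, ha, hb, hab, rfl⟩ := hz
  have hpos : 0 < Q.1 - P.1 := by linarith
  simp only [Prod.fst_add, Prod.smul_fst, smul_eq_mul, Prod.snd_add, Prod.smul_snd]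
  have e : a = 1 - b := by linarith
  subst e
  refine ⟨by nlinarith, by nlinarith, ?_⟩
  unfold ht
  field_simp
  ring

/-- if the difference of heights has a strict sign at both ends, it does not vanish between -/
theorem ht_sign {P Q R T : ℝ × ℝ} {u v x : ℝ} (hu : u ≤ x) (hv : x ≤ v)
    (hs : (0 < ht P Q u - ht R T u ∧ 0 < ht P Q v - ht R T v) ∨
      (ht P Q u - ht R T u < 0 ∧ ht P Q v - ht R T v < 0)) : ht P Q x - ht R T x ≠ 0 := by
  have huv : u ≤ v := hu.trans hv
  unfold ht at *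
  set A := (Q.2 - P.2) / (Q.1 - P.1)
  set B := (T.2 - R.2) / (T.1 - R.1)
  have e : ∀ y, P.2 + A * (y - P.1) - (R.2 + B * (y - R.1)) =
      (A - B) * y + (P.2 - A * P.1 - R.2 + B * R.1) := by intro y; ring
  rw [e, e] at hs
  rw [e]
  set K := P.2 - A * P.1 - R.2 + B * R.1
  rcases le_or_gt 0 (A - B) with h | h
  · rcases hs with ⟨h1, h2⟩ | ⟨h1, h2⟩
    · nlinarith [mul_le_mul_of_nonneg_left hu h]
    · nlinarith [mul_le_mul_of_nonneg_left hv h]
  · rcases hs with ⟨h1, h2⟩ | ⟨h1, h2⟩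
    · nlinarith [mul_le_mul_of_nonpos_left hv h.le]
    · nlinarith [mul_le_mul_of_nonpos_left hu h.le]

theorem Rep.dis1 (H : Rep n s q) {a b c d : ℕ} (h1 : a < c) (h2 : c < b) (h3 : b < d) (hd : d < n)
    (he : s a c b ≠ s c b d) : Disjoint (segment ℝ (q a) (q b)) (segment ℝ (q c) (q d)) := by
  rw [Set.disjoint_iff]
  rintro z ⟨hz1, hz2⟩
  have hab := H.mono a b (by omega) (by omega)
  have hcd := H.mono c d (by omega) (by omega)
  obtain ⟨k1, k2, k3⟩ := seg_ht hab hz1
  obtain ⟨l1, l2, l3⟩ := seg_ht hcd hz2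
  apply ht_sign (P := q a) (Q := q b) (R := q c) (T := q d) l1 k2 _ (by linarith)
  rw [ht_left, ht_right hab]
  rcases h : s a c b
  · have h' : s c b d = true := by
      rcases h' : s c b d
      · exact absurd (h.trans h'.symm) he
      · rfl
    right
    have d1 := H.neg a c b h1 h2 (by omega) h
    have d2 := H.pos c b d h2 h3 hd h'
    rw [det_swap] at d1
    rw [det_swap] at d2
    have e1 := ht_of_det_pos hab (R := q c) (by linarith)
    have e2 := ht_of_det_neg hcd (R := q b) (by linarith)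
    constructor <;> linarith
  · have h' : s c b d = false := by
      rcases h' : s c b d
      · rfl
      · exact absurd (h.trans h'.symm) he
    left
    have d1 := H.pos a c b h1 h2 (by omega) h
    have d2 := H.neg c b d h2 h3 hd h'
    rw [det_swap] at d1
    rw [det_swap] at d2
    have e1 := ht_of_det_neg hab (R := q c) (by linarith)
    have e2 := ht_of_det_pos hcd (R := q b) (by linarith)
    constructor <;> linarith

theorem Rep.dis3 (H : Rep n s q) {a b c d : ℕ} (h1 : a < c) (h2 : c < d) (h3 : d < b) (hb : b < n)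
    (he : s a c b = s a d b) : Disjoint (segment ℝ (q a) (q b)) (segment ℝ (q c) (q d)) := by
  rw [Set.disjoint_iff]
  rintro z ⟨hz1, hz2⟩
  have hab := H.mono a b (by omega) (by omega)
  have hcd := H.mono c d (by omega) (by omega)
  obtain ⟨k1, k2, k3⟩ := seg_ht hab hz1
  obtain ⟨l1, l2, l3⟩ := seg_ht hcd hz2
  apply ht_sign (P := q a) (Q := q b) (R := q c) (T := q d) l1 l2 _ (by linarith)
  rw [ht_left, ht_right hcd]
  rcases h : s a c b
  · have h' : s a d b = false := he ▸ h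
    right
    have d1 := H.neg a c b h1 (by omega) (by omega) h
    have d2 := H.neg a d b (by omega) h3 hb h'
    rw [det_swap] at d1
    rw [det_swap] at d2
    have e1 := ht_of_det_pos hab (R := q c) (by linarith)
    have e2 := ht_of_det_pos hab (R := q d) (by linarith)
    constructor <;> linarith
  · have h' : s a d b = true := he ▸ h
    left
    have d1 := H.pos a c b h1 (by omega) (by omega) h
    have d2 := H.pos a d b (by omega) h3 hb h'
    rw [det_swap] at d1
    rw [det_swap] at d2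
    have e1 := ht_of_det_neg hab (R := q c) (by linarith)
    have e2 := ht_of_det_neg hab (R := q d) (by linarith)
    constructor <;> linarith

theorem Rep.disfar (H : Rep n s q) {a b c d : ℕ} (h1 : a < b) (h2 : c < d) (h3 : b < c)
    (hd : d < n) : Disjoint (segment ℝ (q a) (q b)) (segment ℝ (q c) (q d)) := by
  rw [Set.disjoint_iff]
  rintro z ⟨hz1, hz2⟩
  have hab := H.mono a b (by omega) (by omega)
  have hcd := H.mono c d (by omega) (by omega)
  have hbc := H.mono b c (by omega) (by omega)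
  obtain ⟨k1, k2, k3⟩ := seg_ht hab hz1
  obtain ⟨l1, l2, l3⟩ := seg_ht hcd hz2
  linarith

theorem Rep.dis0 (H : Rep n s q) {a b c d : ℕ} (hab : a < b) (hcd : c < d) (hb : b < n)
    (hd : d < n) (h1 : a ≠ c) (h2 : a ≠ d) (h3 : b ≠ c) (h4 : b ≠ d) (h : NC0 s a b c d) :
    Disjoint (segment ℝ (q a) (q b)) (segment ℝ (q c) (q d)) := by
  obtain ⟨n1, n2, n3, n4⟩ := h
  rcases Nat.lt_or_gt_of_ne h1 with x1 | x1
  · rcases Nat.lt_or_gt_of_ne h3 with x3 | x3
    · exact H.disfar hab hcd x3 hd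
    · rcases Nat.lt_or_gt_of_ne h4 with x4 | x4
      · exact H.dis1 x1 x3 x4 hd (n1 x1 x3 x4)
      · exact H.dis3 x1 hcd x4 hb (n3 x1 hcd x4)
  · rcases Nat.lt_or_gt_of_ne h2 with x2 | x2
    · rcases Nat.lt_or_gt_of_ne h4 with x4 | x4
      · exact (H.dis3 x1 hab x4 hd (n4 x1 hab x4)).symm
      · exact (H.dis1 x1 x2 x4 hb (n2 x1 x2 x4)).symm
    · exact (H.disfar hcd hab x2 hb).symm

theorem Rep.dis (H : Rep n s q) {a b c d : ℕ} (ha : a < n) (hb : b < n) (hc : c < n) (hd : d < n)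
    (hab : a ≠ b) (hcd : c ≠ d)
    (h1 : a ≠ c) (h2 : a ≠ d) (h3 : b ≠ c) (h4 : b ≠ d) (h : NC s a b c d) :
    Disjoint (segment ℝ (q a) (q b)) (segment ℝ (q c) (q d)) := by
  obtain ⟨m1, m2, m3, m4⟩ := h
  rcases Nat.lt_or_gt_of_ne hab with x | x <;> rcases Nat.lt_or_gt_of_ne hcd with y | y
  · exact H.dis0 x y hb hd h1 h2 h3 h4 m1
  · rw [segment_symm ℝ (q c)]
    exact H.dis0 x y hb hc h2 h1 h4 h3 m3
  · rw [segment_symm ℝ (q a)]
    exact H.dis0 x y ha hd h3 h4 h1 h2 m2
  · rw [segment_symm ℝ (q a), segment_symm ℝ (q c)]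
    exact H.dis0 x y ha hc h4 h3 h2 h1 m4

/-- two sides at a common vertex -/
theorem adj {a b c z : ℝ × ℝ} (h : det a b c ≠ 0) (h1 : z ∈ segment ℝ a b)
    (h2 : z ∈ segment ℝ b c) : z = b := by
  obtain ⟨t, t', ht, ht', htt, rfl⟩ := h1
  obtain ⟨u, u', hu, hu', huu, h3⟩ := h2
  rw [Prod.ext_iff] at h3
  simp only [Prod.fst_add, Prod.smul_fst, smul_eq_mul, Prod.snd_add, Prod.smul_snd] at h3
  obtain ⟨h3, h4⟩ := h3
  have e1 : t' = 1 - t := by linarith
  have e2 : u = 1 - u' := by linarith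
  subst e1 e2
  have h5 : t * det a b c = 0 := by
    unfold det
    have h6 : t * (b.1 - a.1) = u' * (b.1 - c.1) := by linarith
    have h7 : t * (b.2 - a.2) = u' * (b.2 - c.2) := by linarith
    have : t * ((b.1 - a.1) * (c.2 - a.2) - (b.2 - a.2) * (c.1 - a.1)) =
        (t * (b.1 - a.1)) * (c.2 - b.2) - (t * (b.2 - a.2)) * (c.1 - b.1) := by ring
    rw [this, h6, h7]
    ring
  have ht0 : t = 0 := by
    rcases mul_eq_zero.1 h5 with h | h'
    · exact h
    · exact absurd h' h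
  subst ht0
  simp

end Pool.Agent.H41.Refl
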