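import Pool.Agent.H41.Refl.M

/-! A polygonization of the point set: its order. -/

set_option autoImplicit false

namespace Pool.Agent.H41.Refl

open Finset

/-- the order in the last cluster -/
def gl (L t : ℕ) : ℕ :=
  if L ≤ 4 then L - 1 - t else if t + 2 < L then t + 2 else if t + 2 = L then 1 else 0

/-- the order of the vertices -/
def fo (n k : ℕ) : ℕ :=
  if k < 10 * ((n - 1) / 10) then k
  else 10 * ((n - 1) / 10) + gl (n - 10 * ((n - 1) / 10)) (k - 10 * ((n - 1) / 10))

/-- the next position -/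
def nx (n k : ℕ) : ℕ := if k + 1 < n then k + 1 else 0

theorem fin1 : ∀ L < 11, ∀ u < L, ∀ t < u, t + 2 ≤ u → u + 1 < L →
    NC sv (gl L t + 1) (gl L (t + 1) + 1) (gl L u + 1) (gl L (u + 1) + 1) := by
  decide +kernel

theorem fin2 : ∀ L < 11, ∀ u < L, 1 ≤ u → u + 1 < L →
    NC sv 0 (gl L 0 + 1) (gl L u + 1) (gl L (u + 1) + 1) := by
  decide +kernel

theorem fin3 : ∀ L < 11, 3 ≤ L → ∀ t < L, 1 ≤ t → t + 2 < L →
    NC sv (gl L t + 1) (gl L (t + 1) + 1) 1 (gl L 0 + 1) := by
  decide +kernel

theorem NC0.back {m a b c d : ℕ} (ha : 10 * m ≤ a + 1 ∧ a < 10 * m + 10)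
    (hb : 10 * m ≤ b + 1 ∧ b < 10 * m + 10) (hc : 10 * m ≤ c + 1 ∧ c < 10 * m + 10)
    (hd : 10 * m ≤ d + 1 ∧ d < 10 * m + 10)
    (h : NC0 sv (ph (10 * m) a) (ph (10 * m) b) (ph (10 * m) c) (ph (10 * m) d)) :
    NC0 sS a b c d := by
  have hp : ∀ x y, (10 * m ≤ x + 1 ∧ x < 10 * m + 10) → (10 * m ≤ y + 1 ∧ y < 10 * m + 10) →
      x < y → ph (10 * m) x < ph (10 * m) y := by
    intro x y hx hy hxy
    unfold ph
    split_ifs <;> omega
  obtain ⟨h1, h2, h3, h4⟩ := h
  refine ⟨?_, ?_, ?_, ?_⟩
  · intro x y z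
    have x' := hp _ _ ha hc x
    have y' := hp _ _ hc hb y
    have z' := hp _ _ hb hd z
    rw [Refl.transfer x' y', Refl.transfer y' z']
    exact h1 x' y' z'
  · intro x y z
    have x' := hp _ _ hc ha x
    have y' := hp _ _ ha hd y
    have z' := hp _ _ hd hb z
    rw [Refl.transfer x' y', Refl.transfer y' z']
    exact h2 x' y' z'
  · intro x y z
    have x' := hp _ _ ha hc x
    have y' := hp _ _ hc hd y
    have z' := hp _ _ hd hb z
    rw [Refl.transfer x' (y'.trans z'), Refl.transfer (x'.trans y') z']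
    exact h3 x' y' z'
  · intro x y z
    have x' := hp _ _ hc ha x
    have y' := hp _ _ ha hb y
    have z' := hp _ _ hb hd z
    rw [Refl.transfer x' (y'.trans z'), Refl.transfer (x'.trans y') z']
    exact h4 x' y' z'

theorem NC.back {m a b c d : ℕ} (ha : 10 * m ≤ a + 1 ∧ a < 10 * m + 10)
    (hb : 10 * m ≤ b + 1 ∧ b < 10 * m + 10) (hc : 10 * m ≤ c + 1 ∧ c < 10 * m + 10)
    (hd : 10 * m ≤ d + 1 ∧ d < 10 * m + 10)
    (h : NC sv (ph (10 * m) a) (ph (10 * m) b) (ph (10 * m) c) (ph (10 * m) d)) :
    NC sS a b c d := by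
  obtain ⟨h1, h2, h3, h4⟩ := h
  exact ⟨h1.back ha hb hc hd, h2.back hb ha hc hd, h3.back ha hb hd hc, h4.back hb ha hd hc⟩

theorem NC.far {s : ℕ → ℕ → ℕ → Bool} {a b c d : ℕ} (h1 : a < c) (h2 : a < d) (h3 : b < c)
    (h4 : b < d) : NC s a b c d := by
  refine ⟨⟨?_, ?_, ?_, ?_⟩, ⟨?_, ?_, ?_, ?_⟩, ⟨?_, ?_, ?_, ?_⟩, ⟨?_, ?_, ?_, ?_⟩⟩ <;>
    (intros; omega)

theorem gl_lt {L t : ℕ} (hL : 1 ≤ L) : gl L t < L := by
  unfold gl; split_ifs <;> omega

theorem fo_NC {n i j : ℕ} (hn : 3 ≤ n) (hij : i + 2 ≤ j) (hj : j < n) (hji : j + 2 ≤ i + n) :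
    NC sS (fo n i) (fo n (nx n i)) (fo n j) (fo n (nx n j)) := by
  obtain ⟨m, hm⟩ : ∃ m, m = (n - 1) / 10 := ⟨_, rfl⟩
  obtain ⟨L, hL⟩ : ∃ L, L = n - 10 * m := ⟨_, rfl⟩
  have hL1 : 1 ≤ L ∧ L ≤ 10 := by omega
  have hbl : ∀ t, t < L → fo n (10 * m + t) = 10 * m + gl L t := by
    intro t ht
    unfold fo
    rw [← hm, ← hL, if_neg (by omega), show 10 * m + t - 10 * m = t by omega]
  have hlt : ∀ k, k < 10 * m → fo n k = k := by
    intro k hk
    unfold fo
    rw [if_pos (by omega)]
  have hgl : ∀ t, gl L t < 10 := by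
    intro t; have := gl_lt (t := t) hL1.1; omega
  have hph : ∀ t, ph (10 * m) (10 * m + gl L t) = gl L t + 1 := fun t => ph_self (hgl t)
  have hni : nx n i = i + 1 := by unfold nx; rw [if_pos (by omega)]
  rw [hni]
  by_cases hjn : j + 1 < n
  · have hnj : nx n j = j + 1 := by unfold nx; rw [if_pos hjn]
    rw [hnj]
    by_cases hi : i + 1 < 10 * m
    · -- the first edge is far left
      rw [hlt i (by omega), hlt (i + 1) hi]
      have hge : ∀ k, i + 2 ≤ k → k < n → i + 1 < fo n k := by
        intro k hk hkn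
        by_cases hk2 : k < 10 * m
        · rw [hlt k hk2]; omega
        · have := hbl (k - 10 * m) (by omega)
          rw [show 10 * m + (k - 10 * m) = k by omega] at this
          omega
      have g1 := hge j hij (by omega)
      have g2 := hge (j + 1) (by omega) hjn
      exact NC.far (by omega) (by omega) (by omega) (by omega)
    · by_cases hi2 : i < 10 * m
      · -- the edge into the last cluster
        obtain ⟨u, hu⟩ : ∃ u, j = 10 * m + u := ⟨j - 10 * m, by omega⟩
        have hi3 : i + 1 = 10 * m + 0 := by omega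
        have e1 : fo n (i + 1) = 10 * m + gl L 0 := by rw [hi3]; exact hbl 0 (by omega)
        have e2 : fo n j = 10 * m + gl L u := by rw [hu]; exact hbl u (by omega)
        have e3 : fo n (j + 1) = 10 * m + gl L (u + 1) := by
          rw [hu, Nat.add_assoc]; exact hbl (u + 1) (by omega)
        rw [hlt i hi2, e1, e2, e3]
        have g0 := hgl 0
        have g1 := hgl u
        have g2 := hgl (u + 1)
        apply NC.back (m := m) (by omega) (by omega) (by omega) (by omega)
        rw [hph, hph, hph]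
        have : ph (10 * m) i = 0 := by unfold ph; rw [if_pos hi2]
        rw [this]
        exact fin2 L (by omega) u (by omega) (by omega) (by omega)
      · -- both in the last cluster
        obtain ⟨u, hu⟩ : ∃ u, j = 10 * m + u := ⟨j - 10 * m, by omega⟩
        obtain ⟨t, ht⟩ : ∃ t, i = 10 * m + t := ⟨i - 10 * m, by omega⟩
        have e0 : fo n i = 10 * m + gl L t := by rw [ht]; exact hbl t (by omega)
        have e1 : fo n (i + 1) = 10 * m + gl L (t + 1) := by
          rw [ht, Nat.add_assoc]; exact hbl (t + 1) (by omega)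
        have e2 : fo n j = 10 * m + gl L u := by rw [hu]; exact hbl u (by omega)
        have e3 : fo n (j + 1) = 10 * m + gl L (u + 1) := by
          rw [hu, Nat.add_assoc]; exact hbl (u + 1) (by omega)
        rw [e0, e1, e2, e3]
        have g0 := hgl t
        have g1 := hgl (t + 1)
        have g2 := hgl u
        have g3 := hgl (u + 1)
        apply NC.back (m := m) (by omega) (by omega) (by omega) (by omega)
        rw [hph, hph, hph, hph]
        exact fin1 L (by omega) u (by omega) t (by omega) (by omega) (by omega)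
  · -- the closing edge
    have hnj : nx n j = 0 := by unfold nx; rw [if_neg hjn]
    rw [hnj]
    have e2 : fo n j = 10 * m := by
      have : j = 10 * m + (L - 1) := by omega
      rw [this, hbl (L - 1) (by omega)]
      have : gl L (L - 1) = 0 := by unfold gl; split_ifs <;> omega
      omega
    rw [e2]
    by_cases hm0 : m = 0
    · subst hm0
      have e0 : fo n i = 10 * 0 + gl L i := by
        have := hbl i (by omega); rwa [show 10 * 0 + i = i by ring] at this
      have e1 : fo n (i + 1) = 10 * 0 + gl L (i + 1) := by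
        have := hbl (i + 1) (by omega); rwa [show 10 * 0 + (i + 1) = i + 1 by ring] at this
      have e3 : fo n 0 = 10 * 0 + gl L 0 := by
        have := hbl 0 (by omega); rwa [show 10 * 0 + 0 = 0 by ring] at this
      rw [e0, e1, e3]
      have g0 := hgl i
      have g1 := hgl (i + 1)
      have g2 := hgl 0
      apply NC.back (m := 0) (by omega) (by omega) (by omega) (by omega)
      rw [hph, hph, hph]
      have : ph (10 * 0) (10 * 0) = 1 := by decide
      rw [this]
      exact fin3 L (by omega) (by omega) i (by omega) (by omega) (by omega)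
    · have e3 : fo n 0 = 0 := hlt 0 (by omega)
      rw [e3]
      by_cases hi : i + 1 < 10 * m
      · -- below the arc
        rw [hlt i (by omega), hlt (i + 1) hi]
        have k1 : sS 0 i (10 * m) = false := by
          unfold sS; rw [if_pos (by omega)]
        have k2 : sS 0 (i + 1) (10 * m) = false := by
          unfold sS; rw [if_pos (by omega)]
        have hi0 : 1 ≤ i := by omega
        refine ⟨⟨?_, ?_, ?_, ?_⟩, ⟨?_, ?_, ?_, ?_⟩, ⟨?_, ?_, ?_, ?_⟩, ⟨?_, ?_, ?_, ?_⟩⟩ <;>
          intros <;> first | omega | (rw [k1, k2])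
      · by_cases hi2 : i < 10 * m
        · have hi3 : i + 1 = 10 * m + 0 := by omega
          have e1 : fo n (i + 1) = 10 * m + gl L 0 := by rw [hi3]; exact hbl 0 (by omega)
          rw [hlt i hi2, e1]
          have hg : 1 ≤ gl L 0 := by unfold gl; split_ifs <;> omega
          have hg10 := hgl 0
          have k1 : sS 0 i (10 * m) = false := by
            unfold sS; rw [if_pos (by omega)]
          have k2 : sS i (10 * m) (10 * m + gl L 0) = true := by
            unfold sS
            rw [if_neg (by omega), if_neg (by omega), show 10 * m % 10 = 0 by omega,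
              show (10 * m + gl L 0) % 10 = gl L 0 by omega]
            have : ∀ g < 10, 1 ≤ g → bl 0 g = true := by decide
            exact this _ hg10 hg
          have hi0 : 1 ≤ i := by omega
          refine ⟨⟨?_, ?_, ?_, ?_⟩, ⟨?_, ?_, ?_, ?_⟩, ⟨?_, ?_, ?_, ?_⟩, ⟨?_, ?_, ?_, ?_⟩⟩ <;>
            intros <;> first | omega | (rw [k1, k2]; simp)
        · obtain ⟨t, ht⟩ : ∃ t, i = 10 * m + t := ⟨i - 10 * m, by omega⟩
          have e0 : fo n i = 10 * m + gl L t := by rw [ht]; exact hbl t (by omega)
          have e1 : fo n (i + 1) = 10 * m + gl L (t + 1) := by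
            rw [ht, Nat.add_assoc]; exact hbl (t + 1) (by omega)
          rw [e0, e1]
          have g0 : 1 ≤ gl L t := by unfold gl; split_ifs <;> omega
          have g1 : 1 ≤ gl L (t + 1) := by unfold gl; split_ifs <;> omega
          apply NC.swap
          exact NC.far (by omega) (by omega) (by omega) (by omega)

end Pool.Agent.H41.Refl
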