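import Pool.Agent.H41.Refl.N

/-! A polygonization of the point set. -/

set_option autoImplicit false

namespace Pool.Agent.H41.Refl

open Finset

theorem Rep.det_ne {n : ℕ} {s : ℕ → ℕ → ℕ → Bool} {q : ℕ → ℝ × ℝ} (H : Rep n s q)
    {a b c : ℕ} (ha : a < n) (hb : b < n) (hc : c < n)
    (hab : a ≠ b) (hbc : b ≠ c) (hac : a ≠ c) : det (q a) (q b) (q c) ≠ 0 := by
  have s1 := H.left_iff ha hb hc hab hbc hac
  rcases h : left s a b c
  · exact (s1.2 h).ne
  · exact (s1.1 h).ne'

theorem gl_inj : ∀ L < 11, ∀ t < L, ∀ u < L, gl L t = gl L u → t = u := by decide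

theorem fo_lt {n k : ℕ} (_hn : 1 ≤ n) (hk : k < n) : fo n k < n := by
  unfold fo
  split_ifs with h
  · exact hk
  · have := gl_lt (L := n - 10 * ((n - 1) / 10)) (t := k - 10 * ((n - 1) / 10)) (by omega)
    omega

theorem fo_inj {n i j : ℕ} (hi : i < n) (hj : j < n) (h : fo n i = fo n j) : i = j := by
  unfold fo at h
  split_ifs at h with h1 h2 h2
  · exact h
  · omega
  · omega
  · have h3 := gl_inj (n - 10 * ((n - 1) / 10)) (by omega) (i - 10 * ((n - 1) / 10)) (by omega)
      (j - 10 * ((n - 1) / 10)) (by omega) (by omega)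
    omega

theorem val_succ {n : ℕ} (hn : 3 ≤ n) (i : ZMod n) : (i + 1).val = nx n i.val := by
  have : NeZero n := ⟨by omega⟩
  have hi := ZMod.val_lt i
  rw [ZMod.val_add, ZMod.val_one'' (by omega)]
  unfold nx
  split_ifs with h
  · exact Nat.mod_eq_of_lt h
  · rw [show i.val + 1 = n by omega, Nat.mod_self]

theorem exists_polygonization {n : ℕ} (hn : 3 ≤ n) :
    ∃ v : ZMod n → ℝ × ℝ, IsPolygonization ((range n).image qS) v := by
  classical
  have : NeZero n := ⟨by omega⟩
  have H := rep n
  have hv : Function.Injective fun i : ZMod n => fo n i.val := by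
    intro i j h
    exact ZMod.val_injective n (fo_inj (ZMod.val_lt i) (ZMod.val_lt j) h)
  have hlt : ∀ i : ZMod n, fo n i.val < n := fun i => fo_lt (by omega) (ZMod.val_lt i)
  have hsurj : ∀ u < n, ∃ i : ZMod n, fo n i.val = u := by
    intro u hu
    have h1 : Function.Injective fun i : ZMod n => (⟨fo n i.val, hlt i⟩ : Fin n) := by
      intro i j h
      apply hv
      simpa using h
    have h2 := (Fintype.bijective_iff_injective_and_card _).2 ⟨h1, by simp⟩
    obtain ⟨i, hi⟩ := h2.2 ⟨u, hu⟩
    exact ⟨i, by simpa using hi⟩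
  refine ⟨fun i => qS (fo n i.val), ?_, ?_, ?_⟩
  · intro i j h
    exact hv (qS_inj h)
  · ext z
    simp only [Set.mem_range, Finset.coe_image, Finset.coe_range, Set.mem_image, Set.mem_Iio]
    constructor
    · rintro ⟨i, rfl⟩
      exact ⟨_, hlt i, rfl⟩
    · rintro ⟨u, hu, rfl⟩
      obtain ⟨i, hi⟩ := hsurj u hu
      exact ⟨i, by rw [hi]⟩
  · have key : ∀ i j : ZMod n, i.val < j.val → ∀ z,
        z ∈ segment ℝ (qS (fo n i.val)) (qS (fo n (i + 1).val)) →
        z ∈ segment ℝ (qS (fo n j.val)) (qS (fo n (j + 1).val)) →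
        ((z = qS (fo n (i + 1).val) ∧ z = qS (fo n j.val)) ∨
          (z = qS (fo n i.val) ∧ z = qS (fo n (j + 1).val))) := by
      intro i j hij z h1 h2
      have hj := ZMod.val_lt j
      have hi := ZMod.val_lt i
      by_cases c1 : i.val + 1 = j.val
      · left
        have e1 : (i + 1).val = j.val := by
          rw [val_succ hn]; unfold nx; rw [if_pos (by omega)]; exact c1
        rw [e1] at h1 ⊢
        have hz : z = qS (fo n j.val) := by
          refine adj (H.det_ne (hlt i) (hlt j) (hlt (j + 1)) ?_ ?_ ?_) h1 h2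
          · intro h; have := fo_inj hi hj h; omega
          · intro h
            have h3 := fo_inj hj (ZMod.val_lt (j + 1)) h
            rw [val_succ hn] at h3; unfold nx at h3; split_ifs at h3 <;> omega
          · intro h
            have h3 := fo_inj hi (ZMod.val_lt (j + 1)) h
            rw [val_succ hn] at h3; unfold nx at h3; split_ifs at h3 <;> omega
        exact ⟨hz, hz⟩
      · by_cases c2 : j.val + 1 = i.val + n
        · right
          have e1 : (j + 1).val = i.val := by
            rw [val_succ hn]; unfold nx; rw [if_neg (by omega)]; omega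
          rw [e1] at h2 ⊢
          have hz : z = qS (fo n i.val) := by
            refine adj (H.det_ne (hlt j) (hlt i) (hlt (i + 1)) ?_ ?_ ?_) h2 h1
            · intro h; have := fo_inj hj hi h; omega
            · intro h
              have h3 := fo_inj hi (ZMod.val_lt (i + 1)) h
              rw [val_succ hn] at h3; unfold nx at h3; split_ifs at h3 <;> omega
            · intro h
              have h3 := fo_inj hj (ZMod.val_lt (i + 1)) h
              rw [val_succ hn] at h3; unfold nx at h3; split_ifs at h3 <;> omega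
          exact ⟨hz, hz⟩
        · exfalso
          have hnc := fo_NC hn (i := i.val) (j := j.val) (by omega) hj (by omega)
          rw [← val_succ hn, ← val_succ hn] at hnc
          have hi1 := ZMod.val_lt (i + 1)
          have hj1 := ZMod.val_lt (j + 1)
          have vi : (i + 1).val = i.val + 1 := by
            rw [val_succ hn]; unfold nx; rw [if_pos (by omega)]
          have vj : (j + 1).val = j.val + 1 ∨ ((j + 1).val = 0 ∧ j.val + 1 = n) := by
            rw [val_succ hn]; unfold nx
            split_ifs with h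
            · left; rfl
            · right; exact ⟨rfl, by omega⟩
          have hd := H.dis (hlt i) (hlt (i + 1)) (hlt j) (hlt (j + 1))
            (fun h => by have := fo_inj hi hi1 h; omega)
            (fun h => by have := fo_inj hj hj1 h; omega)
            (fun h => by have := fo_inj hi hj h; omega)
            (fun h => by have := fo_inj hi hj1 h; omega)
            (fun h => by have := fo_inj hi1 hj h; omega)
            (fun h => by have := fo_inj hi1 hj1 h; omega) hnc
          exact Set.disjoint_left.1 hd h1 h2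
    intro i j hij z hz
    obtain ⟨h1, h2⟩ := hz
    have hne : i.val ≠ j.val := fun h => hij (ZMod.val_injective n h)
    rcases Nat.lt_or_gt_of_ne hne with h | h
    · rcases key i j h z h1 h2 with ⟨a, b⟩ | ⟨a, b⟩
      · exact ⟨Or.inr a, Or.inl b⟩
      · exact ⟨Or.inl a, Or.inr b⟩
    · rcases key j i h z h2 h1 with ⟨a, b⟩ | ⟨a, b⟩
      · exact ⟨Or.inl b, Or.inr a⟩
      · exact ⟨Or.inr b, Or.inl a⟩

/-- `ρ(S)`, the least number of reflex vertices of a polygonization of `S` -/
noncomputable def reflexivity (S : Finset (ℝ × ℝ)) : ℕ :=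
  sInf {r | ∃ v : ZMod S.card → ℝ × ℝ, IsPolygonization S v ∧ r = Set.ncard {i | IsReflex v i}}

/-- `ρ(n)`, the greatest reflexivity of a set of `n` points in general position -/
noncomputable def maxReflexivity (n : ℕ) : ℕ :=
  sSup {r | ∃ S : Finset (ℝ × ℝ), S.card = n ∧ GeneralPosition S ∧ r = reflexivity S}

theorem reflexivity_le {S : Finset (ℝ × ℝ)} (hS : S.card ≠ 0) : reflexivity S ≤ S.card := by
  unfold reflexivity
  have : NeZero S.card := ⟨hS⟩
  rcases Set.eq_empty_or_nonempty
    {r | ∃ v : ZMod S.card → ℝ × ℝ, IsPolygonization S v ∧ r = Set.ncard {i | IsReflex v i}}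
    with h | ⟨r, hr⟩
  · rw [h]; simp
  · refine (Nat.sInf_le hr).trans ?_
    obtain ⟨v, _, rfl⟩ := hr
    have := Set.ncard_le_card {i | IsReflex v i}
    rwa [Nat.card_eq_fintype_card, ZMod.card] at this

theorem bound_reflexivity (hgo : Good) {n : ℕ} (hn : 3 ≤ n) :
    8 * (n / 10) ≤ 3 * maxReflexivity n + 4 := by
  classical
  set S := (range n).image qS with hS
  have hcard : S.card = n := by
    rw [hS, Finset.card_image_of_injective _ qS_inj, Finset.card_range]
  have h1 : 8 * (n / 10) ≤ 3 * reflexivity S + 4 := by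
    have hne : ({r | ∃ v : ZMod S.card → ℝ × ℝ, IsPolygonization S v ∧
        r = Set.ncard {i | IsReflex v i}} : Set ℕ).Nonempty := by
      rw [hcard]
      obtain ⟨v, hv⟩ := exists_polygonization hn
      exact ⟨_, v, hv, rfl⟩
    obtain ⟨v, hv, hr⟩ := Nat.sInf_mem hne
    unfold reflexivity
    rw [hr]
    have h2 := main hgo (n := S.card) (by omega) S (by rw [hcard]) v hv
    have h3 : 8 * (n / 10) = 8 * (S.card / 10) := by rw [hcard]
    exact h3.le.trans h2
  have h2 : reflexivity S ≤ maxReflexivity n := by
    apply le_csSup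
    · refine ⟨n, ?_⟩
      rintro r ⟨T, hT, _, rfl⟩
      rw [← hT]
      exact reflexivity_le (by omega)
    · exact ⟨S, hcard, genpos n, rfl⟩
  omega

end Pool.Agent.H41.Refl
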