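import Pool.Agent.H41.Refl.Table

/-! The search, first level. -/

set_option autoImplicit false

namespace Pool.Agent.H41.Refl

/-- the body of the search for two new neighbours -/
def topf (vb : ℕ) (l : List V) (R F1 F2 B P c : ℕ) : C → C → Bool :=
  fun ⟨o, e, k, t, _, wb, rb⟩ ⟨o', e', k', t', _, wb', rb'⟩ =>
    bif Nat.beq (Nat.add (Nat.land B (Nat.lor e e')) (Nat.land F2 (Nat.lor wb wb'))) 0 then
      force (Nat.add c (bif Nat.beq o 11 then (bif Nat.beq o' 11 then wE P vb else wC P vb)
        else (bif Nat.beq o' 11 then wC P vb else wE P vb))) fun c' =>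
      bif Nat.ble 8 c' then true else
        force (Nat.lor (Nat.lor R rb) rb') fun R =>
        force (Nat.lor F2 (Nat.land F1 (Nat.lor wb wb'))) fun F2' =>
        force (Nat.lor (Nat.lor F1 wb) wb') fun F1 =>
        force (Nat.lor (Nat.lor B k) k') fun B =>
        force (Nat.xor (Nat.xor P t) t') fun P => go l R F1 F2' B P c'
    else true

theorem go_topf {vb sh : ℕ} {cs : List C} {l : List V} {R F1 F2 B P c : ℕ}
    (h1 : Nat.beq (Nat.land F2 vb) 0 = true) (h2 : Nat.beq (Nat.land F1 vb) 0 = true) :
    go (⟨vb, sh, cs⟩ :: l) R F1 F2 B P c = pairs (topf vb l R F1 F2 B P c) cs := by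
  unfold go
  rw [h1, h2]
  rfl

/-- the table without the first vertex -/
def T9 : List V := table.tail

/-- the choices of the first vertex -/
def c9 : List C := match table with
  | [] => []
  | v :: _ => v.cs

/-- the `i`-th choice -/
def cE (i : ℕ) : C := c9.getD i ⟨0, 0, 0, 0, 0, 0, 0⟩

theorem table_cons : table = ⟨512, 144, c9⟩ :: T9 := rfl

/-- one branch of the search -/
def br (i j : ℕ) : Bool := topf 512 T9 0 0 0 0 0 0 (cE i) (cE j)

theorem pairs_of (f : C → C → Bool) (l : List C) (d : C)
    (h1 : ∀ i, i < l.length → 10 ≤ (l.getD i d).o → f (l.getD i d) (l.getD i d) = true)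
    (h2 : ∀ i j, i < j → j < l.length → f (l.getD i d) (l.getD j d) = true) :
    pairs f l = true := by
  induction l with
  | nil => rfl
  | cons x l ih =>
    have ih' := ih (fun i hi ho => by
      have := h1 (i + 1) (by simpa using hi) (by simpa using ho)
      simpa using this) (fun i j hij hj => by
      have := h2 (i + 1) (j + 1) (by omega) (by simpa using hj)
      simpa using this)
    have ha : allC (f x) l = true := by
      have h3 : ∀ j < l.length, f x (l.getD j d) = true := by
        intro j hj
        have := h2 0 (j + 1) (by omega) (by simpa using hj)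
        simpa using this
      clear ih' ih h1 h2
      induction l with
      | nil => rfl
      | cons y l ih =>
        unfold allC
        have h4 := h3 0 (by simp)
        simp only [List.getD_cons_zero] at h4
        rw [h4]
        simp only [cond_true]
        apply ih
        intro j hj
        have := h3 (j + 1) (by simpa using hj)
        simpa using this
    unfold pairs
    rw [ha, ih']
    rcases hb : Nat.ble 10 x.o
    · rfl
    · have h3 := h1 0 (by simp) (by rw [Nat.ble_eq] at hb; simpa using hb)
      simp only [List.getD_cons_zero] at h3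
      simp [h3]

theorem search_of (h00 : br 0 0 = true) (h11 : br 1 1 = true)
    (h : ∀ j, j < 11 → ∀ i, i < j → br i j = true) : go table 0 0 0 0 0 0 = true := by
  rw [table_cons, go_topf (by rfl) (by rfl)]
  have hl : c9.length = 11 := rfl
  apply pairs_of _ _ ⟨0, 0, 0, 0, 0, 0, 0⟩
  · intro i hi ho
    rw [hl] at hi
    interval_cases i
    · exact h00
    · exact h11
    all_goals exact absurd ho (by decide)
  · intro i j hij hj
    rw [hl] at hj
    exact h j hj i hij

end Pool.Agent.H41.Refl
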